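import Pool.Agent.Y932.SY.Ker
import Pool.Agent.Y515.SY.RG3

/-!
Averages of integrable forms over balls of variable radius (helper186; the case of bounded forms is
in `Pool.Agent.Y932.SY.Ker` and `Pool.Agent.Y515.SY.RG2`).
-/

set_option autoImplicit false

open Set Filter Topology MeasureTheory
open scoped Manifold ContDiff Convolution

noncomputable section

namespace Pool.Agent.Q186.SG

open Pool.Agent.Y501.SY
open Pool.Agent.Y932.SY.Ker (kk subst region)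
open Pool.Agent.Y515.SY (Al LL II JJ bs bs_norm expand2 right_sum left_sum two_bound comp_norm
  comp_cont comp_pair LL_norm ev_sm aff_meas contDiffAt_of_eval moll_cs)

variable {d : ℕ}

theorem ker1 (g χ : E d → ℝ) (hg : ContDiff ℝ ∞ g) (hgc : HasCompactSupport g)
    (hχ : ContDiff ℝ ∞ χ) (p₀ : E d) (hp₀ : 0 < χ p₀) :
    (∀ f : E d → ℝ, Integrable f → ContDiffAt ℝ ∞ (fun p => ∫ y, g y * f (p + χ p • y)) p₀) ∧
    ∃ C : ℝ, ∀ f : E d → ℝ, Integrable f →
      |∫ y, g y * f (p₀ + χ p₀ • y)| ≤ C * ∫ x, |f x| ∧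
      ‖fderiv ℝ (fun p => ∫ y, g y * f (p + χ p • y)) p₀‖ ≤ C * ∫ x, |f x| := by
  obtain ⟨s, K, hs, hps, hK, hpos, hz, hsm⟩ := region g χ hg hgc hχ p₀ hp₀
  have hev : ∀ f : E d → ℝ, (fun p => ∫ y, g y * f (p + χ p • y)) =ᶠ[𝓝 p₀]
      fun p => (f ⋆[ContinuousLinearMap.mul ℝ ℝ, volume] kk g χ p) 0 := by
    intro f
    filter_upwards [hs.mem_nhds hps] with p hp
    exact subst g χ f p (hpos p hp)
  refine ⟨fun f hf => ?_, ?_⟩
  · refine ContDiffAt.congr_of_eventuallyEq ?_ (hev f)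
    have h1 := contDiffOn_convolution_right_with_param_comp (n := (⊤ : ℕ∞))
      (ContinuousLinearMap.mul ℝ ℝ) (v := fun _ : E d => (0 : E d)) contDiffOn_const hs hK hz
      hf.locallyIntegrable hsm
    exact h1.contDiffAt (hs.mem_nhds hps)
  · -- bounds
    have hc1 : ContinuousOn (Function.HasUncurry.uncurry (kk g χ)) (s ×ˢ univ) := hsm.continuousOn
    have hc2 : ContinuousOn (fderiv ℝ (Function.HasUncurry.uncurry (kk g χ))) (s ×ˢ univ) :=
      hsm.continuousOn_fderiv_of_isOpen (hs.prod isOpen_univ) (by simp)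
    have hm : ContinuousOn (fun x : E d => (p₀, x)) K := by fun_prop
    have hmm : MapsTo (fun x : E d => (p₀, x)) K (s ×ˢ univ) := fun x _ => ⟨hps, mem_univ _⟩
    obtain ⟨C1, hC1⟩ := hK.exists_bound_of_continuousOn (hc1.comp hm hmm)
    obtain ⟨C2, hC2⟩ := hK.exists_bound_of_continuousOn (hc2.comp hm hmm)
    have hz' : ∀ x, x ∉ K → fderiv ℝ (Function.HasUncurry.uncurry (kk g χ)) (p₀, x) = 0 := by
      intro x hx
      apply (hasFDerivAt_zero_of_eventually_const (0 : ℝ) _).fderiv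
      have M2 : Kᶜ ∈ 𝓝 x := IsOpen.mem_nhds hK.isClosed.isOpen_compl hx
      have M1 : s ∈ 𝓝 p₀ := hs.mem_nhds hps
      rw [nhds_prod_eq]
      filter_upwards [prod_mem_prod M1 M2]
      rintro ⟨p, y⟩ ⟨hp, hy⟩
      exact hz p y hp hy
    have hb1 : ∀ x, ‖kk g χ p₀ x‖ ≤ |C1| := by
      intro x
      by_cases hx : x ∈ K
      · exact (hC1 x hx).trans (le_abs_self _)
      · rw [hz p₀ x hps hx, norm_zero]; exact abs_nonneg _
    have hb2 : ∀ x, ‖fderiv ℝ (Function.HasUncurry.uncurry (kk g χ)) (p₀, x)‖ ≤ |C2| := by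
      intro x
      by_cases hx : x ∈ K
      · exact (hC2 x hx).trans (le_abs_self _)
      · rw [hz' x hx, norm_zero]; exact abs_nonneg _
    set L := (ContinuousLinearMap.mul ℝ ℝ).precompR (E d × E d) with hL
    have hLs : ∀ (u : ℝ) (T : E d × E d →L[ℝ] ℝ), L u T = u • T := by
      intro u T
      ext v <;> simp [hL, ContinuousLinearMap.precompR_apply]
    refine ⟨max |C1| |C2|, fun f hfi => ?_⟩
    have hfn : 0 ≤ ∫ x, |f x| := integral_nonneg fun x => abs_nonneg _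
    have hfa : Integrable (fun x => |f x|) volume := hfi.abs
    constructor
    · rw [subst g χ f p₀ hp₀]
      unfold convolution
      have h1 : |∫ t, ((ContinuousLinearMap.mul ℝ ℝ) (f t)) (kk g χ p₀ (0 - t))| ≤
          ∫ t, |C1| * |f t| := by
        rw [← Real.norm_eq_abs]
        refine norm_integral_le_of_norm_le (hfa.const_mul _) (ae_of_all _ fun t => ?_)
        rw [ContinuousLinearMap.mul_apply', norm_mul, Real.norm_eq_abs (f t), mul_comm]
        exact mul_le_mul_of_nonneg_right (hb1 _) (abs_nonneg _)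
      refine h1.trans ?_
      rw [integral_const_mul]
      exact mul_le_mul_of_nonneg_right (le_max_left _ _) hfn
    · have h1 := hasFDerivAt_convolution_right_with_param (μ := volume)
        (ContinuousLinearMap.mul ℝ ℝ) hs hK hz
        hfi.locallyIntegrable (hsm.of_le (by simp)) (p₀, (0 : E d)) hps
      have h2 : HasFDerivAt (fun p : E d => (p, (0 : E d)))
          (ContinuousLinearMap.inl ℝ (E d) (E d)) p₀ := hasFDerivAt_prodMk_left p₀ 0
      have h3 := h1.comp p₀ h2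
      have h4 := (h3.congr_of_eventuallyEq (hev f)).fderiv
      rw [h4]
      have h5 : ‖(f ⋆[L, volume] fun x : E d => fderiv ℝ (Function.HasUncurry.uncurry (kk g χ))
          (p₀, x)) 0‖ ≤ |C2| * ∫ x, |f x| := by
        unfold convolution
        rw [← integral_const_mul]
        refine norm_integral_le_of_norm_le (hfa.const_mul _) (ae_of_all _ fun t => ?_)
        rw [hLs, norm_smul, Real.norm_eq_abs, mul_comm]
        exact mul_le_mul_of_nonneg_right (hb2 (0 - t)) (abs_nonneg _)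
      refine (ContinuousLinearMap.opNorm_comp_le _ _).trans ?_
      have h7 : ‖ContinuousLinearMap.inl ℝ (E d) (E d)‖ ≤ 1 := by
        refine ContinuousLinearMap.opNorm_le_bound _ zero_le_one fun x => ?_
        rw [ContinuousLinearMap.inl_apply, Prod.norm_def, norm_zero, one_mul]
        exact max_le le_rfl (norm_nonneg _)
      calc _ ≤ (|C2| * ∫ x, |f x|) * 1 :=
            mul_le_mul h5 h7 (norm_nonneg _) (by positivity)
        _ = |C2| * ∫ x, |f x| := mul_one _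
        _ ≤ _ := mul_le_mul_of_nonneg_right (le_max_right _ _) hfn

/-- an affine change of variables -/
theorem aff_int {F : Type*} [NormedAddCommGroup F] {f : E d → F} (hf : Integrable f) (p : E d)
    {c : ℝ} (hc : c ≠ 0) : Integrable (fun y : E d => f (p + c • y)) :=
  (hf.comp_add_left p).comp_smul hc

theorem bdd_cs {g : E d → ℝ} (hg : Continuous g) (hgc : HasCompactSupport g) :
    ∃ M, 0 ≤ M ∧ ∀ y, ‖g y‖ ≤ M := by
  obtain ⟨M, hM⟩ := hg.bounded_above_of_compact_support hgc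
  exact ⟨M, (norm_nonneg _).trans (hM 0), hM⟩

theorem II_int {χ g f : E d → ℝ} (hg : Continuous g) (hgc : HasCompactSupport g)
    (hf : StronglyMeasurable f) (hi : Integrable f) {p : E d} (hp : χ p ≠ 0) :
    Integrable (fun y => g y * f (p + χ p • y)) := by
  obtain ⟨M, hM0, hM⟩ := bdd_cs hg hgc
  refine ((aff_int hi p hp).norm.const_mul M).mono' ?_ (Eventually.of_forall fun y => ?_)
  · exact (hg.stronglyMeasurable.mul (hf.comp_measurable (aff_meas _ _))).aestronglyMeasurable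
  · rw [norm_mul]
    exact mul_le_mul_of_nonneg_right (hM y) (norm_nonneg _)

theorem JJ_int {ρ χ : E d → ℝ} (hg : Continuous ρ) (hgc : HasCompactSupport ρ)
    {Φ : E d → Al d 2} (hf : StronglyMeasurable Φ) (hi : Integrable Φ) {p : E d} (hp : χ p ≠ 0) :
    Integrable (fun y => ρ y •
      (Φ (p + χ p • y)).compContinuousLinearMap (LL (fderiv ℝ χ p) y)) := by
  have hc : Continuous (fun y : E d => LL (fderiv ℝ χ p) y) := by
    unfold LL
    exact continuous_const.add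
      ((ContinuousLinearMap.smulRightL ℝ (E d) (E d) (fderiv ℝ χ p)).continuous)
  obtain ⟨A, hA⟩ : ∃ A : ℝ, A = ‖fderiv ℝ χ p‖ := ⟨_, rfl⟩
  have hA0 : 0 ≤ A := by rw [hA]; exact norm_nonneg _
  have hcg : Continuous (fun y : E d => ρ y * (1 + A * ‖y‖) ^ 2) := by fun_prop
  have hcs : HasCompactSupport (fun y : E d => ρ y * (1 + A * ‖y‖) ^ 2) := hgc.mul_right
  obtain ⟨M, hM0, hM⟩ := bdd_cs hcg hcs
  refine ((aff_int hi p hp).norm.const_mul M).mono' ?_ (Eventually.of_forall fun y => ?_)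
  · refine (hg.stronglyMeasurable.smul ?_).aestronglyMeasurable
    refine comp_cont.comp_stronglyMeasurable (StronglyMeasurable.prodMk ?_ hc.stronglyMeasurable)
    exact hf.comp_measurable (aff_meas _ _)
  · rw [norm_smul]
    have h1 := hM y
    rw [norm_mul, norm_pow, Real.norm_of_nonneg (by positivity : 0 ≤ 1 + A * ‖y‖)] at h1
    have h2 := LL_norm (fderiv ℝ χ p) y
    rw [← hA] at h2
    calc _ ≤ ‖ρ y‖ * (‖Φ (p + χ p • y)‖ * (1 + A * ‖y‖) ^ 2) := by
          refine mul_le_mul_of_nonneg_left ((comp_norm _ _).trans ?_) (norm_nonneg _)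
          exact mul_le_mul_of_nonneg_left (pow_le_pow_left₀ (norm_nonneg _) h2 2) (norm_nonneg _)
      _ = (‖ρ y‖ * (1 + A * ‖y‖) ^ 2) * ‖Φ (p + χ p • y)‖ := by ring
      _ ≤ _ := mul_le_mul_of_nonneg_right h1 (norm_nonneg _)

theorem JJ_apply {ρ χ : E d → ℝ} (hg : Continuous ρ) (hgc : HasCompactSupport ρ)
    {Φ : E d → Al d 2} (hf : StronglyMeasurable Φ) (hi : Integrable Φ) {p : E d} (hp : χ p ≠ 0)
    (v w : E d) :
    JJ ρ χ Φ p ![v, w] = ∫ y, ρ y *
      Φ (p + χ p • y) ![v + fderiv ℝ χ p v • y, w + fderiv ℝ χ p w • y] := by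
  unfold JJ
  let L : (Al d 2) →L[ℝ] ℝ := ContinuousAlternatingMap.apply ℝ (E d) ℝ ![v, w]
  have hL : ∀ η : Al d 2, L η = η ![v, w] := fun η => rfl
  rw [← hL, ← L.integral_comp_comm (JJ_int hg hgc hf hi hp)]
  refine integral_congr_ae (Eventually.of_forall fun y => ?_)
  dsimp only
  rw [hL]
  change ρ y * ((Φ (p + χ p • y)).compContinuousLinearMap (LL (fderiv ℝ χ p) y)) ![v, w] = _
  rw [comp_pair]
  rfl

theorem JJ_apply_int {ρ χ : E d → ℝ} (hg : Continuous ρ) (hgc : HasCompactSupport ρ)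
    {Φ : E d → Al d 2} (hf : StronglyMeasurable Φ) (hi : Integrable Φ) {p : E d} (hp : χ p ≠ 0)
    (v w : E d) :
    Integrable (fun y => ρ y *
      Φ (p + χ p • y) ![v + fderiv ℝ χ p v • y, w + fderiv ℝ χ p w • y]) := by
  let L : (Al d 2) →L[ℝ] ℝ := ContinuousAlternatingMap.apply ℝ (E d) ℝ ![v, w]
  have h1 := L.integrable_comp (JJ_int (χ := χ) hg hgc hf hi hp)
  refine h1.congr (Eventually.of_forall fun y => ?_)
  change ρ y * ((Φ (p + χ p • y)).compContinuousLinearMap (LL (fderiv ℝ χ p) y)) ![v, w] = _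
  rw [comp_pair]
  rfl

theorem JJ_add {ρ χ : E d → ℝ} (hg : Continuous ρ) (hgc : HasCompactSupport ρ)
    {Φ Ψ : E d → Al d 2} (hf : StronglyMeasurable Φ) (hi : Integrable Φ)
    (hf' : StronglyMeasurable Ψ) (hi' : Integrable Ψ) {p : E d} (hp : χ p ≠ 0) :
    JJ ρ χ (fun q => Φ q + Ψ q) p = JJ ρ χ Φ p + JJ ρ χ Ψ p := by
  unfold JJ
  rw [← integral_add (JJ_int hg hgc hf hi hp) (JJ_int hg hgc hf' hi' hp)]
  refine integral_congr_ae (Eventually.of_forall fun y => ?_)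
  dsimp only
  rw [← smul_add]
  rfl

theorem ev_int {Φ : E d → Al d 2} (hi : Integrable Φ) (v w : E d) :
    Integrable (fun q => Φ q ![v, w]) :=
  (ContinuousAlternatingMap.apply ℝ (E d) ℝ ![v, w]).integrable_comp hi

theorem JJ_expand {ρ χ : E d → ℝ} (hg : Continuous ρ) (hgc : HasCompactSupport ρ)
    {Φ : E d → Al d 2} (hf : StronglyMeasurable Φ) (hi : Integrable Φ) {p : E d} (hp : χ p ≠ 0)
    (v w : E d) :
    JJ ρ χ Φ p ![v, w] = II χ ρ (fun q => Φ q ![v, w]) p +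
      fderiv ℝ χ p w * ∑ i, II χ (fun y => ρ y * y i) (fun q => Φ q ![v, bs i]) p +
      fderiv ℝ χ p v * ∑ i, II χ (fun y => ρ y * y i) (fun q => Φ q ![bs i, w]) p := by
  rw [JJ_apply hg hgc hf hi hp]
  have hgi : ∀ i : Fin d, Continuous (fun y : E d => ρ y * y i) := fun i =>
    hg.mul (EuclideanSpace.proj (𝕜 := ℝ) i).continuous
  have hgci : ∀ i : Fin d, HasCompactSupport (fun y : E d => ρ y * y i) := fun i =>
    hgc.mul_right
  have i0 := II_int (χ := χ) hg hgc (ev_sm hf v w) (ev_int hi v w) hp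
  have i1 := fun i => II_int (χ := χ) (hgi i) (hgci i) (ev_sm hf v (bs i)) (ev_int hi v (bs i)) hp
  have i2 := fun i => II_int (χ := χ) (hgi i) (hgci i) (ev_sm hf (bs i) w) (ev_int hi (bs i) w) hp
  have j1 : Integrable (fun y => fderiv ℝ χ p w *
      ∑ i, ρ y * y i * Φ (p + χ p • y) ![v, bs i]) :=
    (integrable_finsetSum _ (fun i _ => i1 i)).const_mul _
  have j2 : Integrable (fun y => fderiv ℝ χ p v *
      ∑ i, ρ y * y i * Φ (p + χ p • y) ![bs i, w]) :=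
    (integrable_finsetSum _ (fun i _ => i2 i)).const_mul _
  have j3 : Integrable (fun y => ρ y * Φ (p + χ p • y) ![v, w] + fderiv ℝ χ p w *
      ∑ i, ρ y * y i * Φ (p + χ p • y) ![v, bs i]) := i0.add j1
  unfold II
  rw [← integral_finsetSum _ (fun i _ => i1 i), ← integral_finsetSum _ (fun i _ => i2 i),
    ← integral_const_mul, ← integral_const_mul, ← integral_add i0 j1, ← integral_add j3 j2]
  refine integral_congr_ae (Eventually.of_forall fun y => ?_)
  dsimp only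
  rw [expand2, right_sum (Φ (p + χ p • y)) v y, left_sum (Φ (p + χ p • y)) y w]
  simp only [Finset.mul_sum, mul_add]
  congr 1
  · congr 1
    refine Finset.sum_congr rfl fun i _ => ?_
    ring
  · refine Finset.sum_congr rfl fun i _ => ?_
    ring

section ker

variable {χ : E d → ℝ}

theorem II_smooth (hχ : ContDiff ℝ ∞ χ) {p₀ : E d} (hp : 0 < χ p₀) {g : E d → ℝ}
    (hg : ContDiff ℝ ∞ g) (hgc : HasCompactSupport g) {f : E d → ℝ} (hi : Integrable f) :
    ContDiffAt ℝ ∞ (II χ g f) p₀ :=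
  (ker1 g χ hg hgc hχ p₀ hp).1 f hi

theorem ne_near (hχ : ContDiff ℝ ∞ χ) {p₀ : E d} (hp : 0 < χ p₀) : ∀ᶠ p in 𝓝 p₀, χ p ≠ 0 :=
  hχ.continuous.continuousAt.eventually_ne hp.ne'

theorem JJ_ev (hχ : ContDiff ℝ ∞ χ) {p₀ : E d} (hp : 0 < χ p₀) {ρ : E d → ℝ}
    (hg : ContDiff ℝ ∞ ρ) (hgc : HasCompactSupport ρ) {Φ : E d → Al d 2}
    (hf : StronglyMeasurable Φ) (hi : Integrable Φ) (v w : E d) :
    (fun p => JJ ρ χ Φ p ![v, w]) =ᶠ[𝓝 p₀] fun p => II χ ρ (fun q => Φ q ![v, w]) p +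
      fderiv ℝ χ p w * ∑ i, II χ (fun y => ρ y * y i) (fun q => Φ q ![v, bs i]) p +
      fderiv ℝ χ p v * ∑ i, II χ (fun y => ρ y * y i) (fun q => Φ q ![bs i, w]) p := by
  filter_upwards [ne_near hχ hp] with p hpp
  exact JJ_expand hg.continuous hgc hf hi hpp v w

theorem JJ_smooth (hχ : ContDiff ℝ ∞ χ) {p₀ : E d} (hp : 0 < χ p₀) {ρ : E d → ℝ}
    (hg : ContDiff ℝ ∞ ρ) (hgc : HasCompactSupport ρ) {Φ : E d → Al d 2}
    (hf : StronglyMeasurable Φ) (hi : Integrable Φ) : ContDiffAt ℝ ∞ (JJ ρ χ Φ) p₀ := by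
  apply contDiffAt_of_eval
  intro v w
  refine ContDiffAt.congr_of_eventuallyEq ?_ (JJ_ev hχ hp hg hgc hf hi v w)
  have hd : ContDiff ℝ ∞ (fderiv ℝ χ) := hχ.fderiv_right (by simp)
  have hdu : ∀ u : E d, ContDiffAt ℝ ∞ (fun p => fderiv ℝ χ p u) p₀ := fun u =>
    hd.contDiffAt.clm_apply contDiffAt_const
  have hgi : ∀ i : Fin d, ContDiff ℝ ∞ (fun y : E d => ρ y * y i) := fun i =>
    hg.mul (EuclideanSpace.proj (𝕜 := ℝ) i).contDiff
  have hgci : ∀ i : Fin d, HasCompactSupport (fun y : E d => ρ y * y i) := fun i =>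
    hgc.mul_right
  refine ((II_smooth hχ hp hg hgc (ev_int hi v w)).add
    ((hdu w).mul (ContDiffAt.sum fun i _ => ?_))).add ((hdu v).mul (ContDiffAt.sum fun i _ => ?_))
  · exact II_smooth hχ hp (hgi i) (hgci i) (ev_int hi v (bs i))
  · exact II_smooth hχ hp (hgi i) (hgci i) (ev_int hi (bs i) w)

/-- the bounds of the scalar averages -/
theorem II_bd (hχ : ContDiff ℝ ∞ χ) {p₀ : E d} (hp : 0 < χ p₀) {g : E d → ℝ}
    (hg : ContDiff ℝ ∞ g) (hgc : HasCompactSupport g) : ∃ C : ℝ, 0 ≤ C ∧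
    ∀ (v w : E d) (Φ : E d → Al d 2), Integrable Φ →
      |II χ g (fun q => Φ q ![v, w]) p₀| ≤ C * (‖v‖ * ‖w‖) * ∫ x, ‖Φ x‖ ∧
      ‖fderiv ℝ (II χ g (fun q => Φ q ![v, w])) p₀‖ ≤ C * (‖v‖ * ‖w‖) * ∫ x, ‖Φ x‖ := by
  obtain ⟨C, hC⟩ := (ker1 g χ hg hgc hχ p₀ hp).2
  refine ⟨|C|, abs_nonneg _, ?_⟩
  intro v w Φ hi
  have hi2 : Integrable (fun q => Φ q ![v, w]) := ev_int hi v w
  obtain ⟨h1, h2⟩ := hC (fun q => Φ q ![v, w]) hi2
  have h3 : ∫ x, |Φ x ![v, w]| ≤ (‖v‖ * ‖w‖) * ∫ x, ‖Φ x‖ := by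
    rw [← integral_const_mul]
    refine integral_mono hi2.abs (hi.norm.const_mul _) fun x => ?_
    have := two_bound (Φ x) v w
    dsimp only
    linarith
  have h4 : C * ∫ x, |Φ x ![v, w]| ≤ |C| * (‖v‖ * ‖w‖) * ∫ x, ‖Φ x‖ := by
    have h5 : 0 ≤ ∫ x, |Φ x ![v, w]| := integral_nonneg fun x => abs_nonneg _
    calc C * ∫ x, |Φ x ![v, w]| ≤ |C| * ∫ x, |Φ x ![v, w]| :=
          mul_le_mul_of_nonneg_right (le_abs_self _) h5
      _ ≤ |C| * ((‖v‖ * ‖w‖) * ∫ x, ‖Φ x‖) := mul_le_mul_of_nonneg_left h3 (abs_nonneg _)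
      _ = _ := by ring
  exact ⟨h1.trans h4, h2.trans h4⟩

/-- the derivative of the regularization is small if the form is small in mean -/
theorem JJ_fd (hχ : ContDiff ℝ ∞ χ) {p₀ : E d} (hp : 0 < χ p₀) {ρ : E d → ℝ}
    (hg : ContDiff ℝ ∞ ρ) (hgc : HasCompactSupport ρ) (v w : E d) : ∃ C : ℝ, 0 ≤ C ∧
    ∀ (Φ : E d → Al d 2), StronglyMeasurable Φ → Integrable Φ →
      ‖fderiv ℝ (fun p => JJ ρ χ Φ p ![v, w]) p₀‖ ≤ C * ∫ x, ‖Φ x‖ := by
  have hd : ContDiff ℝ ∞ (fderiv ℝ χ) := hχ.fderiv_right (by simp)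
  have hdu : ∀ u : E d, DifferentiableAt ℝ (fun p => fderiv ℝ χ p u) p₀ := fun u =>
    (hd.contDiffAt.clm_apply contDiffAt_const).differentiableAt (by simp)
  have hgi : ∀ i : Fin d, ContDiff ℝ ∞ (fun y : E d => ρ y * y i) := fun i =>
    hg.mul (EuclideanSpace.proj (𝕜 := ℝ) i).contDiff
  have hgci : ∀ i : Fin d, HasCompactSupport (fun y : E d => ρ y * y i) := fun i =>
    hgc.mul_right
  obtain ⟨C0, hC0, h0⟩ := II_bd hχ hp hg hgc
  choose Ci hCi hi using fun i => II_bd hχ hp (hgi i) (hgci i)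
  set β : ℝ := fderiv ℝ χ p₀ w
  set α : ℝ := fderiv ℝ χ p₀ v
  set β' := fderiv ℝ (fun p => fderiv ℝ χ p w) p₀
  set α' := fderiv ℝ (fun p => fderiv ℝ χ p v) p₀
  refine ⟨C0 * (‖v‖ * ‖w‖) + (|β| + ‖β'‖) * (∑ i, Ci i * (‖v‖ * ‖bs i‖)) +
    (|α| + ‖α'‖) * (∑ i, Ci i * (‖bs i‖ * ‖w‖)), ?_, ?_⟩
  · have h1 : 0 ≤ ∑ i, Ci i * (‖v‖ * ‖bs i‖) :=
      Finset.sum_nonneg fun i _ => mul_nonneg (hCi i) (by positivity)
    have h2 : 0 ≤ ∑ i, Ci i * (‖bs i‖ * ‖w‖) :=
      Finset.sum_nonneg fun i _ => mul_nonneg (hCi i) (by positivity)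
    positivity
  intro Φ hf hint
  set m : ℝ := ∫ x, ‖Φ x‖
  rw [(JJ_ev hχ hp hg hgc hf hint v w).fderiv_eq]
  have d0 : HasFDerivAt (II χ ρ (fun q => Φ q ![v, w]))
      (fderiv ℝ (II χ ρ (fun q => Φ q ![v, w])) p₀) p₀ :=
    ((II_smooth hχ hp hg hgc (ev_int hint v w)).differentiableAt (by simp)).hasFDerivAt
  have d1 : ∀ i : Fin d, HasFDerivAt (II χ (fun y => ρ y * y i) (fun q => Φ q ![v, bs i]))
      (fderiv ℝ (II χ (fun y => ρ y * y i) (fun q => Φ q ![v, bs i])) p₀) p₀ := fun i =>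
    ((II_smooth hχ hp (hgi i) (hgci i) (ev_int hint v (bs i))).differentiableAt
      (by simp)).hasFDerivAt
  have d2 : ∀ i : Fin d, HasFDerivAt (II χ (fun y => ρ y * y i) (fun q => Φ q ![bs i, w]))
      (fderiv ℝ (II χ (fun y => ρ y * y i) (fun q => Φ q ![bs i, w])) p₀) p₀ := fun i =>
    ((II_smooth hχ hp (hgi i) (hgci i) (ev_int hint (bs i) w)).differentiableAt
      (by simp)).hasFDerivAt
  have s1 := HasFDerivAt.fun_sum (u := Finset.univ) fun i _ => d1 i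
  have s2 := HasFDerivAt.fun_sum (u := Finset.univ) fun i _ => d2 i
  have hD := (d0.add ((hdu w).hasFDerivAt.mul s1)).add ((hdu v).hasFDerivAt.mul s2)
  have hD' := hD.fderiv
  have hm1 : |∑ i, II χ (fun y => ρ y * y i) (fun q => Φ q ![v, bs i]) p₀| ≤
      (∑ i, Ci i * (‖v‖ * ‖bs i‖)) * m := by
    rw [Finset.sum_mul]
    exact (Finset.abs_sum_le_sum_abs _ _).trans
      (Finset.sum_le_sum fun i _ => (hi i v (bs i) Φ hint).1)
  have hm2 : |∑ i, II χ (fun y => ρ y * y i) (fun q => Φ q ![bs i, w]) p₀| ≤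
      (∑ i, Ci i * (‖bs i‖ * ‖w‖)) * m := by
    rw [Finset.sum_mul]
    exact (Finset.abs_sum_le_sum_abs _ _).trans
      (Finset.sum_le_sum fun i _ => (hi i (bs i) w Φ hint).1)
  have hn1 : ‖∑ i, fderiv ℝ (II χ (fun y => ρ y * y i) (fun q => Φ q ![v, bs i])) p₀‖ ≤
      (∑ i, Ci i * (‖v‖ * ‖bs i‖)) * m := by
    rw [Finset.sum_mul]
    exact (norm_sum_le _ _).trans
      (Finset.sum_le_sum fun i _ => (hi i v (bs i) Φ hint).2)
  have hn2 : ‖∑ i, fderiv ℝ (II χ (fun y => ρ y * y i) (fun q => Φ q ![bs i, w])) p₀‖ ≤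
      (∑ i, Ci i * (‖bs i‖ * ‖w‖)) * m := by
    rw [Finset.sum_mul]
    exact (norm_sum_le _ _).trans
      (Finset.sum_le_sum fun i _ => (hi i (bs i) w Φ hint).2)
  have hz := (h0 v w Φ hint).2
  refine (le_of_eq (congrArg norm hD')).trans ?_
  refine (norm_add_le _ _).trans ?_
  refine (add_le_add (norm_add_le _ _) le_rfl).trans ?_
  refine (add_le_add (add_le_add le_rfl (norm_add_le _ _)) (norm_add_le _ _)).trans ?_
  rw [norm_smul, norm_smul, norm_smul, norm_smul, Real.norm_eq_abs, Real.norm_eq_abs,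
    Real.norm_eq_abs, Real.norm_eq_abs]
  have k1 := mul_le_mul_of_nonneg_left hn1 (abs_nonneg β)
  have k2 := mul_le_mul_of_nonneg_right hm1 (norm_nonneg β')
  have k3 := mul_le_mul_of_nonneg_left hn2 (abs_nonneg α)
  have k4 := mul_le_mul_of_nonneg_right hm2 (norm_nonneg α')
  calc _ ≤ C0 * (‖v‖ * ‖w‖) * m + (|β| * ((∑ i, Ci i * (‖v‖ * ‖bs i‖)) * m) +
        (∑ i, Ci i * (‖v‖ * ‖bs i‖)) * m * ‖β'‖) +
        (|α| * ((∑ i, Ci i * (‖bs i‖ * ‖w‖)) * m) +
        (∑ i, Ci i * (‖bs i‖ * ‖w‖)) * m * ‖α'‖) := by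
        refine add_le_add (add_le_add hz (add_le_add k1 k2)) (add_le_add k3 k4)
    _ = _ := by ring

end ker

end Pool.Agent.Q186.SG
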