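import Pool.Agent.Q186.SG.W
import Pool.Agent.Y515.SY.RG

/-!
Averages of integrable closed forms with singularities (helper186; adapted from
`Pool.Agent.Y515.SY.RG3`, `RG`).
-/

set_option autoImplicit false

open Set Filter Topology MeasureTheory
open scoped Manifold ContDiff

noncomputable section

namespace Pool.Agent.Q186.SG

open Pool.Agent.Y501.SY
open Pool.Agent.Y515.SY (Al LL II JJ bs bs_norm expand2 right_sum left_sum two_bound comp_norm
  comp_cont comp_pair pair_eta LL_norm ev_sm aff_meas contDiffAt_of_eval moll_cs ind_sm ind_ev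
  ind_smooth JJ_sm ext_smul ext_zero wedge3_norm comp3_norm JJ_off moll_int aff_null lR_apply
  JJ_eq moll_exists vol_zero)

variable {d : ℕ}

section ind

variable {V k : Set (E d)} {s : E d → Al d 2}

/-- the averages are closed at points at which `χ` is positive -/
theorem JJ_closed {ρ χ : E d → ℝ} (hSM : S_SM) {ε : ℝ} (hε : 0 ≤ ε)
    (hρ : Moll ε ρ) (hχ : ContDiff ℝ ∞ χ)
    (hVk : IsOpen (V \ k)) (hs : ContDiffOn ℝ ∞ s (V \ k))
    (hcl : ∀ p ∈ V \ k, extDeriv s p = 0) (hi : Integrable ((V \ k).indicator s))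
    {Q : Set (E d)} (hQV : Q ⊆ V) (hcap : WCap (k ∩ Q) ((V \ k).indicator s))
    {p₀ : E d} (hp : 0 < χ p₀) (hball : ∀ y, ‖y‖ ≤ ε → p₀ + χ p₀ • y ∈ Q) :
    extDeriv (JJ ρ χ ((V \ k).indicator s)) p₀ = 0 := by
  set Φ : E d → Al d 2 := (V \ k).indicator s with hΦ
  have hf : StronglyMeasurable Φ := ind_sm hVk hs
  have hρc := moll_cs hρ
  apply ContinuousAlternatingMap.ext
  intro u
  change extDeriv (JJ ρ χ Φ) p₀ u = 0
  choose Ci hCi0 hCi using fun i : Fin 3 =>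
    JJ_fd hχ hp hρ.smooth hρc (i.removeNth u 0) (i.removeNth u 1)
  obtain ⟨C1, hC1⟩ := (ker1 ρ χ hρ.smooth hρc hχ p₀ hp).2
  set l : ℝ := 1 + ‖fderiv ℝ χ p₀‖ * ε with hl
  have hl0 : 0 ≤ l := by positivity
  have key : ∀ δ' : ℝ, 0 < δ' → |extDeriv (JJ ρ χ Φ) p₀ u| ≤
      ((3 * l ^ 3) * |C1| * (∏ i, ‖u i‖) + ∑ i, Ci i * ‖u i‖) * δ' := by
    intro δ' hδ'
    obtain ⟨η, hη, hη0, hη1, hηk, hηc, hηv, hηi⟩ := hcap δ' hδ'
    set s1 : E d → Al d 2 := fun q => (1 - η q) • Φ q with hs1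
    set s2 : E d → Al d 2 := fun q => η q • Φ q with hs2
    have hf1 : StronglyMeasurable s1 :=
      (continuous_const.sub hη.continuous).stronglyMeasurable.smul hf
    have hf2 : StronglyMeasurable s2 := hη.continuous.stronglyMeasurable.smul hf
    have hb1 : ∀ q, ‖s1 q‖ ≤ ‖Φ q‖ := by
      intro q
      rw [hs1, norm_smul, Real.norm_of_nonneg (by linarith [hη1 q])]
      exact mul_le_of_le_one_left (norm_nonneg _) (by linarith [hη0 q])
    have hb2' : ∀ q, ‖s2 q‖ = η q * ‖Φ q‖ := by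
      intro q
      rw [hs2, norm_smul, Real.norm_of_nonneg (hη0 q)]
    have hb2 : ∀ q, ‖s2 q‖ ≤ ‖Φ q‖ := fun q => by
      rw [hb2' q]
      exact mul_le_of_le_one_left (norm_nonneg _) (hη1 q)
    have hi1 : Integrable s1 := hi.norm.mono' hf1.aestronglyMeasurable (Eventually.of_forall hb1)
    have hi2 : Integrable s2 := hi.norm.mono' hf2.aestronglyMeasurable (Eventually.of_forall hb2)
    have hsum : JJ ρ χ Φ =ᶠ[𝓝 p₀] JJ ρ χ s1 + JJ ρ χ s2 := by
      filter_upwards [ne_near hχ hp] with p hpp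
      rw [Pi.add_apply, ← JJ_add hρ.smooth.continuous hρc hf1 hi1 hf2 hi2 hpp]
      congr 1
      funext q
      simp only [hs1, hs2]
      rw [← add_smul, sub_add_cancel, one_smul]
    have hd1 : DifferentiableAt ℝ (JJ ρ χ s1) p₀ :=
      (JJ_smooth hχ hp hρ.smooth hρc hf1 hi1).differentiableAt (by simp)
    have hd2 : DifferentiableAt ℝ (JJ ρ χ s2) p₀ :=
      (JJ_smooth hχ hp hρ.smooth hρc hf2 hi2).differentiableAt (by simp)
    rw [hsum.extDeriv_eq, extDeriv_add hd1 hd2]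
    -- the small part
    have hm2 : ∫ x, ‖s2 x‖ ≤ δ' := by
      simp_rw [hb2']
      exact hηv
    have part2 : |extDeriv (JJ ρ χ s2) p₀ u| ≤ (∑ i, Ci i * ‖u i‖) * δ' := by
      rw [extDeriv_apply hd2, Finset.sum_mul]
      refine (Finset.abs_sum_le_sum_abs _ _).trans (Finset.sum_le_sum fun i _ => ?_)
      have h1 : |(-1 : ℤ) ^ i.val • fderiv ℝ (fun x => JJ ρ χ s2 x (i.removeNth u)) p₀ (u i)| =
          |fderiv ℝ (fun x => JJ ρ χ s2 x (i.removeNth u)) p₀ (u i)| := by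
        rcases neg_one_pow_eq_or ℤ i.val with h | h <;> rw [h] <;> simp
      have h2 : |fderiv ℝ (fun x => JJ ρ χ s2 x (i.removeNth u)) p₀ (u i)| ≤
          Ci i * ‖u i‖ * δ' := by
        have h3 := (fderiv ℝ (fun x => JJ ρ χ s2 x (i.removeNth u)) p₀).le_opNorm (u i)
        have h4 := hCi i s2 hf2 hi2
        rw [← pair_eta (i.removeNth u)] at h4
        rw [Real.norm_eq_abs] at h3
        refine h3.trans ?_
        calc _ ≤ Ci i * δ' * ‖u i‖ :=
              mul_le_mul_of_nonneg_right (h4.trans (mul_le_mul_of_nonneg_left hm2 (hCi0 i)))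
                (norm_nonneg _)
          _ = _ := by ring
      refine le_trans (le_of_eq ?_) h2
      convert h1 using 2
    -- the smooth part
    set O : Set (E d) := (V \ k) ∪ interior {x | η x = 1} with hO
    have hOo : IsOpen O := hVk.union isOpen_interior
    have hev1 : ∀ q ∈ interior {x | η x = 1}, s1 =ᶠ[𝓝 q] fun _ => 0 := by
      intro q hq
      filter_upwards [isOpen_interior.mem_nhds hq] with x hx
      have hx1 : x ∈ {x | η x = 1} := interior_subset hx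
      rw [mem_ofPred_eq] at hx1
      simp only [hs1]
      rw [hx1, sub_self, zero_smul]
    have hev2 : ∀ q ∈ V \ k, s1 =ᶠ[𝓝 q] fun x => (1 - η x) • s x := by
      intro q hq
      filter_upwards [ind_ev (s := s) hVk hq] with x hx
      simp only [hs1, hΦ]
      rw [hx]
    have hη' : ContDiff ℝ ∞ (fun x => 1 - η x) := contDiff_const.sub hη
    have hsm1 : ContDiffOn ℝ ∞ s1 O := by
      intro q hq
      refine ContDiffAt.contDiffWithinAt ?_
      rcases hq with hq | hq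
      · exact (hη'.contDiffAt.smul (hs.contDiffAt (hVk.mem_nhds hq))).congr_of_eventuallyEq
          (hev2 q hq)
      · exact contDiffAt_const.congr_of_eventuallyEq (hev1 q hq)
    have hkint : ∀ q ∈ k ∩ Q, q ∈ interior {x | η x = 1} := by
      intro q hq
      rw [mem_interior_iff_mem_nhds]
      exact (eventually_nhdsSet_iff_forall.1 hηk) q hq
    have hQO : ∀ y, ‖y‖ ≤ ε → p₀ + χ p₀ • y ∈ O := by
      intro y hy
      have h1 := hball y hy
      by_cases hk' : p₀ + χ p₀ • y ∈ k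
      · exact Or.inr (hkint _ ⟨hk', h1⟩)
      · exact Or.inl ⟨hQV h1, hk'⟩
    obtain ⟨-, h2⟩ := JJ_sm hSM hρ hχ hOo hsm1 hQO
    have hdη : Continuous (fun x => ‖fderiv ℝ η x‖) := (hη.continuous_fderiv (by simp)).norm
    obtain ⟨M, hM⟩ : ∃ M, ∀ x, ‖fderiv ℝ η x‖ ≤ M :=
      (hη.continuous_fderiv (by simp)).bounded_above_of_compact_support (hηc.fderiv ℝ)
    set f₀ : E d → ℝ := fun x => ‖fderiv ℝ η x‖ * ‖Φ x‖ with hf₀
    have hf₀m : StronglyMeasurable f₀ := hdη.stronglyMeasurable.mul hf.norm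
    have hf₀i : Integrable f₀ := by
      refine (hi.norm.const_mul M).mono' hf₀m.aestronglyMeasurable (Eventually.of_forall fun x => ?_)
      rw [hf₀, norm_mul, norm_norm, norm_norm]
      exact mul_le_mul_of_nonneg_right (hM x) (norm_nonneg _)
    have hgi : Integrable (fun y => ρ y * f₀ (p₀ + χ p₀ • y)) :=
      II_int (χ := χ) hρ.smooth.continuous hρc hf₀m hf₀i hp.ne'
    have hf₀0 : ∀ x, 0 ≤ f₀ x := fun x => mul_nonneg (norm_nonneg _) (norm_nonneg _)
    have h3 := h2 (fun y => (3 * l ^ 3) * (ρ y * f₀ (p₀ + χ p₀ • y)))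
      (hgi.const_mul _) (fun y => mul_nonneg (by positivity)
        (mul_nonneg (hρ.nonneg y) (hf₀0 _))) (fun y hy => by
        set q : E d := p₀ + χ p₀ • y with hq
        have hqQ : q ∈ Q := hball y hy
        have h4 : ‖extDeriv s1 q‖ ≤ 3 * f₀ q := by
          by_cases hqk : q ∈ k
          · rw [ext_zero (hev1 q (hkint q ⟨hqk, hqQ⟩)), norm_zero]
            have := hf₀0 q
            positivity
          · have hqVk : q ∈ V \ k := ⟨hQV hqQ, hqk⟩
            rw [(hev2 q hqVk).extDeriv_eq, ext_smul ((hη'.differentiable (by simp)) q)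
              ((hs.contDiffAt (hVk.mem_nhds hqVk)).differentiableAt (by simp)), hcl q hqVk,
              smul_zero, zero_add]
            refine (wedge3_norm _ _).trans ?_
            have h5 : fderiv ℝ (fun x => 1 - η x) q = -fderiv ℝ η q := fderiv_const_sub _
            have h6 : Φ q = s q := by rw [hΦ, indicator_of_mem hqVk]
            rw [h5, norm_neg]
            show _ ≤ 3 * (‖fderiv ℝ η q‖ * ‖Φ q‖)
            rw [h6]
        have h5 : ‖LL (fderiv ℝ χ p₀) y‖ ≤ l := by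
          refine (LL_norm _ _).trans ?_
          rw [hl]
          have := mul_le_mul_of_nonneg_left hy (norm_nonneg (fderiv ℝ χ p₀))
          linarith
        have h6 : ‖(extDeriv s1 q).compContinuousLinearMap (LL (fderiv ℝ χ p₀) y)‖ ≤
            3 * f₀ q * l ^ 3 :=
          (comp3_norm _ _).trans (mul_le_mul h4 (pow_le_pow_left₀ (norm_nonneg _) h5 3)
            (by positivity) (mul_nonneg (by norm_num) (hf₀0 q)))
        calc _ ≤ ρ y * (3 * f₀ q * l ^ 3) :=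
              mul_le_mul_of_nonneg_left h6 (hρ.nonneg y)
          _ = _ := by ring)
    have part1 : |extDeriv (JJ ρ χ s1) p₀ u| ≤
        (3 * l ^ 3) * |C1| * (∏ i, ‖u i‖) * δ' := by
      have h4 := (extDeriv (JJ ρ χ s1) p₀).le_opNorm u
      rw [Real.norm_eq_abs] at h4
      rw [integral_const_mul] at h3
      have h5 := (hC1 f₀ hf₀i).1
      have h5' : ∫ x, |f₀ x| = ∫ x, f₀ x := by
        refine integral_congr_ae (Eventually.of_forall fun x => ?_)
        exact abs_of_nonneg (hf₀0 x)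
      rw [h5'] at h5
      have h6 : ∫ y, ρ y * f₀ (p₀ + χ p₀ • y) ≤ |C1| * δ' := by
        refine (le_abs_self _).trans (h5.trans ?_)
        have h7 : 0 ≤ ∫ x, f₀ x := integral_nonneg hf₀0
        calc C1 * ∫ x, f₀ x ≤ |C1| * ∫ x, f₀ x :=
              mul_le_mul_of_nonneg_right (le_abs_self _) h7
          _ ≤ |C1| * δ' := mul_le_mul_of_nonneg_left hηi (abs_nonneg _)
      have h7 : 0 ≤ ∏ i, ‖u i‖ := Finset.prod_nonneg fun i _ => norm_nonneg _
      calc |extDeriv (JJ ρ χ s1) p₀ u| ≤ ‖extDeriv (JJ ρ χ s1) p₀‖ * ∏ i, ‖u i‖ := h4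
        _ ≤ (3 * l ^ 3 * (|C1| * δ')) * ∏ i, ‖u i‖ :=
            mul_le_mul_of_nonneg_right (h3.trans
              (mul_le_mul_of_nonneg_left h6 (by positivity))) h7
        _ = _ := by ring
    calc |(extDeriv (JJ ρ χ s1) p₀ + extDeriv (JJ ρ χ s2) p₀) u|
        = |extDeriv (JJ ρ χ s1) p₀ u + extDeriv (JJ ρ χ s2) p₀ u| := rfl
      _ ≤ _ := (abs_add_le _ _).trans (add_le_add part1 part2)
      _ = _ := by ring
  set Ct : ℝ := (3 * l ^ 3) * |C1| * (∏ i, ‖u i‖) + ∑ i, Ci i * ‖u i‖ with hCt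
  by_contra hne
  have hpos : 0 < |extDeriv (JJ ρ χ Φ) p₀ u| := abs_pos.2 hne
  have hCt0 : 0 ≤ Ct := by
    have h1 := key 1 one_pos
    linarith [abs_nonneg (extDeriv (JJ ρ χ Φ) p₀ u)]
  have h1 := key (|extDeriv (JJ ρ χ Φ) p₀ u| / (2 * (Ct + 1))) (by positivity)
  have h2 : Ct * (|extDeriv (JJ ρ χ Φ) p₀ u| / (2 * (Ct + 1))) ≤
      |extDeriv (JJ ρ χ Φ) p₀ u| / 2 := by
    rw [mul_div_assoc', div_le_div_iff₀ (by positivity) two_pos]
    nlinarith
  linarith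

end ind

/-- the lower bound -/
theorem JJ_lb {ρ χ : E d → ℝ} {ε : ℝ} (hρ : Moll ε ρ) {V k Q : Set (E d)} {s : E d → Al d 2}
    {Js : E d → (E d →L[ℝ] E d)} (hVk : IsOpen (V \ k)) (hs : ContDiffOn ℝ ∞ s (V \ k))
    (hi : Integrable ((V \ k).indicator s)) {w : E d → ℝ} {C c w₀ δ₁ D S : ℝ} (hC0 : 0 ≤ C)
    (hδ₁ : 0 ≤ δ₁) (hw₀ : 0 ≤ w₀) (hc0 : 0 ≤ c)
    (hw : ∀ p ∈ V \ k, w₀ ≤ w p) (hsB : ∀ p ∈ V \ k, ‖s p‖ ≤ C * w p) (hQV : Q ⊆ V)
    (hkQ : volume (k ∩ Q) = 0)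
    (hpos : ∀ p ∈ V \ k, ∀ v : E d, c * w p * ‖v‖ ^ 2 ≤ s p ![v, Js p v]) {p : E d}
    (hp : χ p ≠ 0) (hball : ∀ y, ‖y‖ ≤ ε → p + χ p • y ∈ Q)
    (hJ : ∀ y, ‖y‖ ≤ ε → ‖Js p - Js (p + χ p • y)‖ ≤ δ₁) (hS : ‖Js p‖ ≤ S)
    (hD : ‖fderiv ℝ χ p‖ ≤ D) (hsmall : C * δ₁ + 2 * C * D * ε * S ≤ c / 2) (v : E d) :
    c / 2 * w₀ * ‖v‖ ^ 2 ≤ JJ ρ χ ((V \ k).indicator s) p ![v, Js p v] := by
  have hD0 : 0 ≤ D := (norm_nonneg _).trans hD
  have hS0 : 0 ≤ S := (norm_nonneg _).trans hS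
  have hf := ind_sm hVk hs
  have hρc := moll_cs hρ
  rw [JJ_apply hρ.smooth.continuous hρc hf hi hp]
  have h1 : ∫ y, ρ y * (c / 2 * w₀ * ‖v‖ ^ 2) = c / 2 * w₀ * ‖v‖ ^ 2 := by
    rw [integral_mul_const, hρ.int, one_mul]
  rw [← h1]
  refine integral_mono_ae ((moll_int hρ).mul_const _)
    (JJ_apply_int hρ.smooth.continuous hρc hf hi hp v (Js p v)) ?_
  filter_upwards [aff_null hkQ p hp] with y hy
  by_cases hyε : ε ≤ ‖y‖
  · rw [hρ.supp y hyε, zero_mul, zero_mul]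
  rw [not_le] at hyε
  refine mul_le_mul_of_nonneg_left ?_ (hρ.nonneg y)
  set q : E d := p + χ p • y with hq
  have hqQ : q ∈ Q := hball y hyε.le
  have hqVk : q ∈ V \ k := ⟨hQV hqQ, fun h => hy ⟨h, hqQ⟩⟩
  rw [indicator_of_mem hqVk, expand2]
  set u : E d := Js p v with hu
  have hwn : ‖u‖ ≤ S * ‖v‖ :=
    ((Js p).le_opNorm v).trans (mul_le_mul_of_nonneg_right hS (norm_nonneg _))
  have hwq : w₀ ≤ w q := hw q hqVk
  have hwq0 : 0 ≤ w q := hw₀.trans hwq
  set b : ℝ := C * w q with hb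
  have hb0 : 0 ≤ b := mul_nonneg hC0 hwq0
  have hsq : ‖s q‖ ≤ b := hsB q hqVk
  have hv0 : 0 ≤ ‖v‖ := norm_nonneg v
  -- the first term
  have t1 : s q ![v, u] = s q ![v, Js q v] + s q ![v, u - Js q v] := by
    rw [← lR_apply, ← lR_apply, ← lR_apply, ← map_add]
    congr 1
    abel
  have t2 := hpos q hqVk v
  have t3 : |s q ![v, u - Js q v]| ≤ b * δ₁ * ‖v‖ ^ 2 := by
    have h2 : ‖u - Js q v‖ ≤ δ₁ * ‖v‖ := by
      have h3 := (Js p - Js q).le_opNorm v
      rw [_root_.sub_apply] at h3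
      exact h3.trans (mul_le_mul_of_nonneg_right (hJ y hyε.le) hv0)
    refine (two_bound _ _ _).trans ?_
    calc ‖s q‖ * (‖v‖ * ‖u - Js q v‖) ≤ b * (‖v‖ * (δ₁ * ‖v‖)) :=
          mul_le_mul hsq (mul_le_mul_of_nonneg_left h2 hv0) (by positivity) hb0
      _ = _ := by ring
  -- the error terms
  have hdv : |fderiv ℝ χ p v| ≤ D * ‖v‖ := by
    have h3 := (fderiv ℝ χ p).le_opNorm v
    rw [Real.norm_eq_abs] at h3
    exact h3.trans (mul_le_mul_of_nonneg_right hD hv0)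
  have hdw : |fderiv ℝ χ p u| ≤ D * (S * ‖v‖) := by
    have h3 := (fderiv ℝ χ p).le_opNorm u
    rw [Real.norm_eq_abs] at h3
    exact h3.trans (mul_le_mul hD hwn (norm_nonneg _) hD0)
  have t4 : |fderiv ℝ χ p u * s q ![v, y]| ≤ b * D * ε * S * ‖v‖ ^ 2 := by
    rw [abs_mul]
    have h4 : |s q ![v, y]| ≤ b * (‖v‖ * ε) :=
      (two_bound _ _ _).trans (mul_le_mul hsq (mul_le_mul_of_nonneg_left hyε.le hv0)
        (by positivity) hb0)
    calc _ ≤ D * (S * ‖v‖) * (b * (‖v‖ * ε)) :=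
          mul_le_mul hdw h4 (abs_nonneg _) (by positivity)
      _ = _ := by ring
  have t5 : |fderiv ℝ χ p v * s q ![y, u]| ≤ b * D * ε * S * ‖v‖ ^ 2 := by
    rw [abs_mul]
    have hε0 : 0 ≤ ε := (norm_nonneg y).trans hyε.le
    have h4 : |s q ![y, u]| ≤ b * (ε * (S * ‖v‖)) :=
      (two_bound _ _ _).trans (mul_le_mul hsq (mul_le_mul hyε.le hwn (norm_nonneg _) hε0)
        (by positivity) hb0)
    calc _ ≤ D * ‖v‖ * (b * (ε * (S * ‖v‖))) :=
          mul_le_mul hdv h4 (abs_nonneg _) (by positivity)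
      _ = _ := by ring
  have a3 := (abs_le.1 t3).1
  have a4 := (abs_le.1 t4).1
  have a5 := (abs_le.1 t5).1
  have hvv : 0 ≤ ‖v‖ ^ 2 := sq_nonneg _
  have f1 : (C * δ₁ + 2 * C * D * ε * S) * (w q * ‖v‖ ^ 2) ≤ c / 2 * (w q * ‖v‖ ^ 2) :=
    mul_le_mul_of_nonneg_right hsmall (by positivity)
  have f2 : c / 2 * w₀ * ‖v‖ ^ 2 ≤ c / 2 * w q * ‖v‖ ^ 2 :=
    mul_le_mul_of_nonneg_right (mul_le_mul_of_nonneg_left hwq (by linarith)) hvv
  have f3 : b * δ₁ * ‖v‖ ^ 2 + 2 * (b * D * ε * S * ‖v‖ ^ 2) =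
      (C * δ₁ + 2 * C * D * ε * S) * (w q * ‖v‖ ^ 2) := by rw [hb]; ring
  rw [t1]
  linarith

/-- local regularization of a form with a power singularity -/
theorem loc_avg (hSM : S_SM) (hd : 3 ≤ d) {V k : Set (E d)} {χ : E d → ℝ} {s : E d → Al d 2}
    {Js : E d → (E d →L[ℝ] E d)} {p₀ : E d} {C c b r r₃ : ℝ} (hC0 : 0 ≤ C) (hc0 : 0 < c)
    (hb0 : 0 < b) (hb2 : b < 2) (hr0 : 0 < r) (hr₃ : 0 < r₃)
    (hV : IsOpen V) (hVr : V ⊆ Metric.ball p₀ r) (hVk : IsOpen (V \ k)) (hp₀ : p₀ ∈ k)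
    (hcap : ∀ Q : Set (E d), IsCompact Q → Q ⊆ V → Cap (k ∩ Q))
    (hχ : ContDiff ℝ ∞ χ) (hχ0 : ∀ p, 0 ≤ χ p) (hχc : HasCompactSupport χ) (hχV : tsupport χ ⊆ V)
    (hs : ContDiffOn ℝ ∞ s (V \ k)) (hcl : ∀ p ∈ V \ k, extDeriv s p = 0)
    (hsB : ∀ p ∈ V \ k, ‖s p‖ ≤ C * ‖p - p₀‖ ^ (-b)) (hJ : ContinuousOn Js V)
    (hpos : ∀ p ∈ V \ k, ∀ v : E d, c * ‖p - p₀‖ ^ (-b) * ‖v‖ ^ 2 ≤ s p ![v, Js p v]) :
    ∃ (s' : E d → Al d 2) (B' c' : ℝ), 0 < c' ∧
      ContDiffOn ℝ ∞ s' (V \ (k ∩ {p | χ p = 0})) ∧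
      (∀ p ∈ V \ (k ∩ {p | χ p = 0}), extDeriv s' p = 0) ∧
      (∀ p ∈ V \ (k ∩ {p | χ p = 0}), r₃ ≤ ‖p - p₀‖ → ‖s' p‖ ≤ B') ∧
      (∀ p, χ p = 0 → s' p = s p) ∧
      ∀ p ∈ V \ (k ∩ {p | χ p = 0}), ∀ v : E d, c' * ‖v‖ ^ 2 ≤ s' p ![v, Js p v] := by
  obtain ⟨r₀, hr₀, hrV⟩ := IsCompact.exists_cthickening_subset_open hχc hV hχV
  set Q : Set (E d) := Metric.cthickening r₀ (tsupport χ) with hQdef
  have hQ : IsCompact Q := IsCompact.cthickening hχc
  have hNQ : tsupport χ ⊆ Q := Metric.self_subset_cthickening _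
  have hcapQ : Cap (k ∩ Q) := hcap Q hQ hrV
  have hkQ : volume (k ∩ Q) = 0 := vol_zero hcapQ
  -- integrability
  have hsm := ind_sm hVk hs
  have hΦb : ∀ q, ‖(V \ k).indicator s q‖ ≤ C * ‖q - p₀‖ ^ (-b) := by
    intro q
    by_cases hq : q ∈ V \ k
    · rw [indicator_of_mem hq]; exact hsB q hq
    · rw [indicator_of_notMem hq, norm_zero]; positivity
  have hd3 : (3 : ℝ) ≤ d := by exact_mod_cast hd
  have hi : Integrable ((V \ k).indicator s) := by
    have h1 := (pow_int (by omega : 1 ≤ d) p₀ (by linarith : b < d) r).const_mul C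
    rw [← IntegrableOn, ← integrable_indicator_iff measurableSet_ball] at h1
    refine h1.mono' hsm.aestronglyMeasurable (Eventually.of_forall fun q => ?_)
    by_cases hq : q ∈ V \ k
    · rw [indicator_of_mem (hVr hq.1)]
      exact hΦb q
    · rw [indicator_of_notMem hq, norm_zero]
      exact indicator_nonneg (fun x _ => by positivity) q
  have hwc : WCap (k ∩ Q) ((V \ k).indicator s) := wcap hd hcapQ hsm hi hC0 hb0 hb2 hΦb
  -- the lower bound of the weight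
  have hw₀ : ∀ p ∈ V \ k, r ^ (-b) ≤ ‖p - p₀‖ ^ (-b) := by
    intro p hp
    have h1 : 0 < ‖p - p₀‖ := by
      rw [norm_pos_iff, sub_ne_zero]
      rintro rfl
      exact hp.2 hp₀
    have h2 := hVr hp.1
    rw [Metric.mem_ball, dist_eq_norm] at h2
    exact Real.rpow_le_rpow_of_nonpos h1 h2.le (by linarith)
  obtain ⟨S₀, hS₀⟩ := hQ.exists_bound_of_continuousOn (hJ.mono hrV)
  set S : ℝ := max S₀ 0 with hSdef
  have hS0 : 0 ≤ S := le_max_right _ _
  have hS : ∀ p ∈ Q, ‖Js p‖ ≤ S := fun p hp => (hS₀ p hp).trans (le_max_left _ _)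
  obtain ⟨D, hD⟩ := (hχ.continuous_fderiv (by simp)).bounded_above_of_compact_support
    (hχc.fderiv ℝ)
  have hD0 : 0 ≤ D := (norm_nonneg _).trans (hD 0)
  obtain ⟨X, hX⟩ := hχ.continuous.bounded_above_of_compact_support hχc
  have hX0 : 0 ≤ X := (norm_nonneg _).trans (hX 0)
  set δ₁ : ℝ := c / (4 * (C + 1)) with hδ₁def
  have hδ₁ : 0 < δ₁ := by positivity
  obtain ⟨r₄, hr₄, hr₄'⟩ := Metric.uniformContinuousOn_iff.1
    (hQ.uniformContinuousOn_of_continuous (hJ.mono hrV)) δ₁ hδ₁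
  obtain ⟨ε, hε, hε₁, hε₂, hε₃, hε₄⟩ : ∃ ε : ℝ, 0 < ε ∧ ε ≤ r₀ / (X + 1) ∧
      ε ≤ r₄ / (2 * (X + 1)) ∧ ε ≤ c / (8 * ((C + 1) * (D + 1) * (S + 1))) ∧
      ε ≤ r₃ / (2 * (X + 1)) := by
    refine ⟨min (min (r₀ / (X + 1)) (r₄ / (2 * (X + 1))))
      (min (c / (8 * ((C + 1) * (D + 1) * (S + 1)))) (r₃ / (2 * (X + 1)))), ?_, ?_, ?_, ?_, ?_⟩
    · exact lt_min (lt_min (by positivity) (by positivity)) (lt_min (by positivity) (by positivity))
    · exact (min_le_left _ _).trans (min_le_left _ _)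
    · exact (min_le_left _ _).trans (min_le_right _ _)
    · exact (min_le_right _ _).trans (min_le_left _ _)
    · exact (min_le_right _ _).trans (min_le_right _ _)
  rw [le_div_iff₀ (by positivity)] at hε₁ hε₂ hε₃ hε₄
  obtain ⟨ρ, hρ⟩ := moll_exists (d := d) hε
  have hmove : ∀ p y : E d, ‖y‖ ≤ ε → ‖χ p • y‖ ≤ X * ε := by
    intro p y hy
    rw [norm_smul]
    exact mul_le_mul (hX p) hy (norm_nonneg _) hX0
  have hball : ∀ p ∈ tsupport χ, ∀ y, ‖y‖ ≤ ε → p + χ p • y ∈ Q := by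
    intro p hp y hy
    refine Metric.mem_cthickening_of_dist_le _ p _ _ hp ?_
    rw [dist_eq_norm, add_sub_cancel_left]
    refine (hmove p y hy).trans ?_
    nlinarith
  have hin : ∀ p, χ p ≠ 0 → p ∈ tsupport χ := fun p hp => subset_tsupport χ hp
  have hfd : ∀ p, χ p = 0 → fderiv ℝ χ p = 0 := by
    intro p hp
    apply IsLocalMin.fderiv_eq_zero
    refine Eventually.of_forall fun x => ?_
    rw [hp]
    exact hχ0 x
  classical
  set J : E d → Al d 2 := JJ ρ χ ((V \ k).indicator s) with hJdef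
  set Ω : Set (E d) := V \ (k ∩ {p | χ p = 0}) with hΩ
  have hsplit : ∀ p ∈ Ω, (χ p = 0 ∧ p ∈ V \ k) ∨ (0 < χ p ∧ p ∈ V) := by
    intro p hp
    by_cases h : χ p = 0
    · exact Or.inl ⟨h, hp.1, fun hk => hp.2 ⟨hk, h⟩⟩
    · exact Or.inr ⟨lt_of_le_of_ne (hχ0 p) (Ne.symm h), hp.1⟩
  have hΩo : IsOpen Ω := by
    have h1 : Ω = (V \ k) ∪ (V ∩ {p | χ p ≠ 0}) := by
      ext p
      constructor
      · intro hp
        rcases hsplit p hp with h | h
        · exact Or.inl h.2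
        · exact Or.inr ⟨h.2, h.1.ne'⟩
      · rintro (h | h)
        · exact ⟨h.1, fun h' => h.2 h'.1⟩
        · exact ⟨h.1, fun h' => h.2 h'.2⟩
    rw [h1]
    exact hVk.union (hV.inter (isOpen_ne_fun hχ.continuous continuous_const))
  have hJs : ∀ p ∈ V \ k, χ p = 0 → J p = s p := by
    intro p hp h0
    rw [hJdef, JJ_eq hρ _ h0 (hfd p h0), indicator_of_mem hp]
  obtain ⟨s', hs'⟩ : ∃ s' : E d → Al d 2, ∀ p, s' p = if χ p = 0 then s p else J p :=
    ⟨_, fun _ => rfl⟩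
  have hs'J : ∀ p ∈ Ω, s' p = J p := by
    intro p hp
    rw [hs' p]
    split_ifs with h
    · rcases hsplit p hp with h' | h'
      · exact (hJs p h'.2 h).symm
      · exact absurd h h'.1.ne'
    · rfl
  have hev : ∀ p ∈ Ω, s' =ᶠ[𝓝 p] J := by
    intro p hp
    filter_upwards [hΩo.mem_nhds hp] with q hq using hs'J q hq
  have hJsm : ∀ p ∈ Ω, ContDiffAt ℝ ∞ J p ∧ extDeriv J p = 0 := by
    intro p hp
    rcases hsplit p hp with h | h
    · exact JJ_off hSM hρ hχ hVk hs hcl h.2 h.1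
    · refine ⟨JJ_smooth hχ h.1 hρ.smooth (moll_cs hρ) hsm hi, ?_⟩
      exact JJ_closed hSM hε.le hρ hχ hVk hs hcl hi hrV hwc h.1 (hball p (hin p h.1.ne'))
  refine ⟨s', C * (r₃ / 2) ^ (-b) * (1 + D * ε) ^ 2, c / 2 * r ^ (-b), by positivity,
    ?_, ?_, ?_, ?_, ?_⟩
  · intro p hp
    exact ((hJsm p hp).1.congr_of_eventuallyEq (hev p hp)).contDiffWithinAt
  · intro p hp
    rw [(hev p hp).extDeriv_eq]
    exact (hJsm p hp).2
  · intro p hp hpr
    rw [hs'J p hp]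
    set b₃ : ℝ := C * (r₃ / 2) ^ (-b) with hb₃
    have hb₃0 : 0 ≤ b₃ := by positivity
    have h1 : ∫ y, ρ y * (b₃ * (1 + D * ε) ^ 2) = b₃ * (1 + D * ε) ^ 2 := by
      rw [integral_mul_const, hρ.int, one_mul]
    rw [← h1]
    refine norm_integral_le_of_norm_le ((moll_int hρ).mul_const _)
      (Eventually.of_forall fun y => ?_)
    rw [norm_smul, Real.norm_of_nonneg (hρ.nonneg y)]
    by_cases hy : ε ≤ ‖y‖
    · rw [hρ.supp y hy, zero_mul, zero_mul]
    · rw [not_le] at hy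
      refine mul_le_mul_of_nonneg_left ?_ (hρ.nonneg y)
      refine (comp_norm _ _).trans ?_
      have h2 : ‖LL (fderiv ℝ χ p) y‖ ≤ 1 + D * ε := by
        refine (LL_norm _ _).trans ?_
        have := mul_le_mul (hD p) hy.le (norm_nonneg _) hD0
        linarith
      have h3 : ‖(V \ k).indicator s (p + χ p • y)‖ ≤ b₃ := by
        refine (hΦb _).trans (mul_le_mul_of_nonneg_left ?_ hC0)
        refine Real.rpow_le_rpow_of_nonpos (by positivity) ?_ (by linarith)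
        have h4 := hmove p y hy.le
        have h5 : ‖p - p₀‖ ≤ ‖p + χ p • y - p₀‖ + ‖χ p • y‖ := by
          have : p - p₀ = (p + χ p • y - p₀) - χ p • y := by abel
          rw [this]
          exact norm_sub_le _ _
        nlinarith
      exact mul_le_mul h3 (pow_le_pow_left₀ (norm_nonneg _) h2 2) (by positivity) hb₃0
  · intro p hp
    rw [hs' p, if_pos hp]
  · intro p hp v
    have hv2 : 0 ≤ ‖v‖ ^ 2 := sq_nonneg _
    have hrb : 0 < r ^ (-b) := by positivity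
    rcases hsplit p hp with h | h
    · rw [hs' p, if_pos h.1]
      have h1 := hpos p h.2 v
      have h2 := hw₀ p h.2
      refine le_trans ?_ h1
      refine mul_le_mul_of_nonneg_right ?_ hv2
      calc c / 2 * r ^ (-b) ≤ c * r ^ (-b) := by nlinarith
        _ ≤ c * ‖p - p₀‖ ^ (-b) := mul_le_mul_of_nonneg_left h2 hc0.le
    · rw [hs'J p hp]
      have hpN : p ∈ tsupport χ := hin p h.1.ne'
      refine JJ_lb hρ hVk hs hi (w := fun p => ‖p - p₀‖ ^ (-b)) hC0 hδ₁.le hrb.le hc0.le hw₀ hsB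
        hrV hkQ hpos h.1.ne' (hball p hpN) (fun y hy => ?_) (hS p (hNQ hpN)) (hD p) ?_ v
      · have h2 : dist p (p + χ p • y) < r₄ := by
          rw [dist_eq_norm, sub_add_cancel_left, norm_neg]
          refine lt_of_le_of_lt (hmove p y hy) ?_
          nlinarith
        have h3 := hr₄' p (hNQ hpN) _ (hball p hpN y hy) h2
        rw [dist_eq_norm] at h3
        exact h3.le
      · have h4 : C * δ₁ ≤ c / 4 := by
          rw [hδ₁def, mul_div_assoc', div_le_div_iff₀ (by positivity) (by norm_num)]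
          nlinarith
        have h5 : 2 * C * D * ε * S ≤ c / 4 := by
          have h6 : C * D * S ≤ (C + 1) * (D + 1) * (S + 1) := by
            apply mul_le_mul (mul_le_mul _ _ hD0 _) _ hS0 _
            all_goals first | linarith | positivity
          have h7 : ε * (C * D * S) ≤ ε * ((C + 1) * (D + 1) * (S + 1)) :=
            mul_le_mul_of_nonneg_left h6 hε.le
          nlinarith
        linarith

end Pool.Agent.Q186.SG
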