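import Pool.Agent.Q186.SG.Mod

/-!
Local regularization at an unbounded singular point (helper186).
-/

set_option autoImplicit false

open Set Filter Topology MeasureTheory
open scoped Manifold ContDiff

noncomputable section

namespace Pool.Agent.Q186.SG

open Pool.Agent.Y501.SY
open Pool.Agent.Y515.SY (Al)

variable {d : ℕ}

theorem loc_reg (hSM : S_SM) (hd : 3 ≤ d) {p₀ : E d} {r a C₀ c₀ : ℝ} (hr : 0 < r) (ha : a < 2)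
    (hC₀ : 0 ≤ C₀) (hc₀ : 0 < c₀) {k : Set (E d)} {χ : E d → ℝ} {s : E d → Al d 2}
    {Js : E d → (E d →L[ℝ] E d)} (hVk : IsOpen (Metric.ball p₀ r \ k)) (hp₀ : p₀ ∈ k)
    (hcap : ∀ Q : Set (E d), IsCompact Q → Q ⊆ Metric.ball p₀ r → Cap (k ∩ Q))
    (hχ : ContDiff ℝ ∞ χ) (hχ0 : ∀ p, 0 ≤ χ p) (hχc : HasCompactSupport χ)
    (hχV : tsupport χ ⊆ Metric.ball p₀ r)
    (hχs : ∀ p, χ p = 0 ↔ p ∉ Metric.ball p₀ (r / 2))
    (hs : ContDiffOn ℝ ∞ s (Metric.ball p₀ r \ k))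
    (hcl : ∀ p ∈ Metric.ball p₀ r \ k, extDeriv s p = 0)
    (hsB : ∀ p ∈ Metric.ball p₀ r \ k, ‖s p‖ ≤ C₀ * ‖p - p₀‖ ^ (-a))
    (hJ : ContinuousOn Js (Metric.ball p₀ r)) (hJJ : ∀ v, Js p₀ (Js p₀ v) = -v)
    (hpos : ∀ p ∈ Metric.ball p₀ r \ k, ∀ v : E d, c₀ * ‖v‖ ^ 2 ≤ s p ![v, Js p v]) :
    ∃ (s' : E d → Al d 2) (B' c' : ℝ), 0 < c' ∧
      ContDiffOn ℝ ∞ s' (Metric.ball p₀ r \ (k ∩ {p | χ p = 0})) ∧
      (∀ p ∈ Metric.ball p₀ r \ (k ∩ {p | χ p = 0}), extDeriv s' p = 0) ∧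
      (∀ p ∈ Metric.ball p₀ r \ (k ∩ {p | χ p = 0}), r / 4 ≤ ‖p - p₀‖ → ‖s' p‖ ≤ B') ∧
      (∀ p, χ p = 0 → s' p = s p) ∧
      ∀ p ∈ Metric.ball p₀ r \ (k ∩ {p | χ p = 0}), ∀ v : E d, c' * ‖v‖ ^ 2 ≤ s' p ![v, Js p v] := by
  obtain ⟨b, hb0, hb2, hab⟩ : ∃ b : ℝ, 0 < b ∧ b < 2 ∧ a ≤ b :=
    ⟨max a 1, lt_max_of_lt_right one_pos, max_lt ha one_lt_two, le_max_left _ _⟩
  obtain ⟨A, C, c, M, hC, hc, hM, hAs, hAc, hA0, hAb, hAp⟩ :=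
    mod_form (p₀ := p₀) hr hb0.le hb2 hJ hJJ
  obtain ⟨κ, hκ, hκM⟩ : ∃ κ : ℝ, 0 < κ ∧ κ * M ≤ c₀ := by
    refine ⟨c₀ / (M + 1), by positivity, ?_⟩
    rw [div_mul_eq_mul_div, div_le_iff₀ (by positivity)]
    nlinarith
  have hne : ∀ p ∈ Metric.ball p₀ r \ k, p ≠ p₀ := by
    rintro p hp rfl
    exact hp.2 hp₀
  obtain ⟨s₂, hs₂⟩ : ∃ s₂ : E d → Al d 2, s₂ = fun p => s p + κ • A p := ⟨_, rfl⟩
  have hAs' : ContDiffOn ℝ ∞ A (Metric.ball p₀ r \ k) := hAs.mono fun p hp => hne p hp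
  have g1 : ContDiffOn ℝ ∞ s₂ (Metric.ball p₀ r \ k) := by
    rw [hs₂]
    exact hs.add (hAs'.const_smul κ)
  have g2 : ∀ p ∈ Metric.ball p₀ r \ k, extDeriv s₂ p = 0 := by
    intro p hp
    have h1 : DifferentiableAt ℝ s p :=
      (hs.contDiffAt (hVk.mem_nhds hp)).differentiableAt (by simp)
    have h2 : DifferentiableAt ℝ A p :=
      (hAs'.contDiffAt (hVk.mem_nhds hp)).differentiableAt (by simp)
    have h3 : s₂ = s + κ • A := by rw [hs₂]; rfl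
    rw [h3, extDeriv_add h1 (h2.const_smul κ), extDeriv_smul, hcl p hp, hAc p (hne p hp)]
    simp
  have g3 : ∀ p ∈ Metric.ball p₀ r \ k,
      ‖s₂ p‖ ≤ (C₀ * r ^ (b - a) + κ * C) * ‖p - p₀‖ ^ (-b) := by
    intro p hp
    have h1 : 0 < ‖p - p₀‖ := norm_pos_iff.2 (sub_ne_zero.2 (hne p hp))
    have h2 : ‖p - p₀‖ ^ (-a) ≤ r ^ (b - a) * ‖p - p₀‖ ^ (-b) := by
      have h3 : ‖p - p₀‖ ^ (-a) = ‖p - p₀‖ ^ (b - a) * ‖p - p₀‖ ^ (-b) := by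
        rw [← Real.rpow_add h1]
        congr 1
        ring
      rw [h3]
      refine mul_le_mul_of_nonneg_right ?_ (by positivity)
      have h4 := hp.1
      rw [Metric.mem_ball, dist_eq_norm] at h4
      exact Real.rpow_le_rpow h1.le h4.le (by linarith)
    rw [hs₂]
    calc ‖s p + κ • A p‖ ≤ ‖s p‖ + ‖κ • A p‖ := norm_add_le _ _
      _ ≤ C₀ * (r ^ (b - a) * ‖p - p₀‖ ^ (-b)) + κ * (C * ‖p - p₀‖ ^ (-b)) := by
          refine add_le_add ((hsB p hp).trans (mul_le_mul_of_nonneg_left h2 hC₀)) ?_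
          rw [norm_smul, Real.norm_of_nonneg hκ.le]
          exact mul_le_mul_of_nonneg_left (hAb p hp.1 (hne p hp)) hκ.le
      _ = _ := by ring
  have g4 : ∀ p ∈ Metric.ball p₀ r \ k, ∀ v : E d,
      κ * c * ‖p - p₀‖ ^ (-b) * ‖v‖ ^ 2 ≤ s₂ p ![v, Js p v] := by
    intro p hp v
    have h1 := hpos p hp v
    have h2 := mul_le_mul_of_nonneg_left (hAp p hp.1 (hne p hp) v) hκ.le
    have h3 : s₂ p ![v, Js p v] = s p ![v, Js p v] + κ * A p ![v, Js p v] := by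
      rw [hs₂]
      rfl
    have h4 : κ * M * ‖v‖ ^ 2 ≤ c₀ * ‖v‖ ^ 2 := mul_le_mul_of_nonneg_right hκM (sq_nonneg _)
    rw [h3]
    have h5 : κ * (c * ‖p - p₀‖ ^ (-b) * ‖v‖ ^ 2 - M * ‖v‖ ^ 2) =
      κ * c * ‖p - p₀‖ ^ (-b) * ‖v‖ ^ 2 - κ * M * ‖v‖ ^ 2 := by ring
    linarith
  obtain ⟨s', B', c', hc', e1, e2, e3, e4, e5⟩ := loc_avg hSM hd (V := Metric.ball p₀ r) (k := k)
    (χ := χ) (s := s₂) (Js := Js) (p₀ := p₀) (C := C₀ * r ^ (b - a) + κ * C) (c := κ * c) (b := b)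
    (r := r) (r₃ := r / 4) (by positivity) (by positivity) hb0 hb2 hr (by positivity)
    Metric.isOpen_ball Subset.rfl hVk hp₀ hcap hχ hχ0 hχc hχV g1 g2 g3 hJ g4
  refine ⟨s', B', c', hc', e1, e2, e3, fun p hp => ?_, e5⟩
  rw [e4 p hp, hs₂]
  change s p + κ • A p = s p
  rw [hA0 p ((hχs p).1 hp), smul_zero, add_zero]

end Pool.Agent.Q186.SG
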