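import Pool.Agent.Q186.SG.Pt

/-!
Removable singularities of taming forms which may be unbounded near points of the singular set
(helper186; adapted from `Pool.Agent.Y501.SY.MainT` and `Pool.Agent.Y929.SY.Glob`).
-/

set_option autoImplicit false
set_option linter.unusedSectionVars false

open Set Filter Topology MeasureTheory
open scoped Manifold ContDiff

noncomputable section

namespace Pool.Agent.Q186.SG

open Pool.Agent.Y501.SY
open Pool.Agent.Y455.SY (AB BA A_surj Q Q_eq)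
open Pool.Agent.Y929.SY (ev_of_chart ev_to_chart near pb_apply2 pos_near)

section

variable {d : ℕ} {X : Type} [TopologicalSpace X] [ChartedSpace (E d) X] [IsManifold (𝓡 d) ∞ X]

/-- boundedness from a bound in another chart -/
theorem bdd_of_chart (hI : S_IMM) {m : ℕ} {F : X → E m} (hF : ContMDiff (𝓡 d) (𝓡 m) ∞ F)
    (hFi : ∀ x, Function.Injective (mfderiv (𝓡 d) (𝓡 m) F x)) {σ : Form d X 2}
    {K : Set X} (z : X) {y : X} (hy : y ∈ (chartAt (E d) z).source) {B : ℝ}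
    (h : ∀ᶠ p in 𝓝 (chartAt (E d) z y), (chartAt (E d) z).symm p ∉ K →
      ‖pb (chartAt (E d) z).symm σ p‖ ≤ B) : BddAt σ K y := by
  rw [BddAt_iff hI hF hFi]
  have htar : (chartAt (E d) z).target ∈ 𝓝 (chartAt (E d) z y) :=
    (chartAt (E d) z).open_target.mem_nhds ((chartAt (E d) z).map_source hy)
  obtain ⟨r, hr, hN2⟩ := Metric.nhds_basis_closedBall.mem_iff.1 htar
  have hN1 : Metric.closedBall (chartAt (E d) z y) r ∈ 𝓝 (chartAt (E d) z y) :=
    Metric.closedBall_mem_nhds _ hr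
  obtain ⟨c₁, C₁, hc₁, hC₁, hnm⟩ := hI d m X F hF hFi z _ (isCompact_closedBall _ r) hN2
  refine ⟨|B| * c₁⁻¹ * c₁⁻¹, by positivity, ?_⟩
  have hc := (chartAt (E d) z).continuousAt hy
  filter_upwards [hc.eventually h, hc.eventually hN1,
    (chartAt (E d) z).open_source.mem_nhds hy] with y' hpB hp hys hpK v w
  obtain ⟨p, hp'⟩ : ∃ p, p = chartAt (E d) z y' := ⟨_, rfl⟩
  have hy' : y' = (chartAt (E d) z).symm p := by
    rw [hp', (chartAt (E d) z).left_inv hys]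
  rw [← hp'] at hpB hp
  subst hy'
  obtain ⟨v', rfl⟩ := A_surj z (hN2 hp) v
  obtain ⟨w', rfl⟩ := A_surj z (hN2 hp) w
  rw [← pb_apply2]
  have h1 := le_norm2 (pb (chartAt (E d) z).symm σ p) v' w'
  have h2 : ‖pb (chartAt (E d) z).symm σ p‖ ≤ |B| := (hpB hpK).trans (le_abs_self _)
  have h3 : c₁ * ‖v'‖ ≤ nm F ((chartAt (E d) z).symm p) (Pool.Agent.Y455.SY.A z p v') :=
    (hnm p hp v').1
  have h4 : c₁ * ‖w'‖ ≤ nm F ((chartAt (E d) z).symm p) (Pool.Agent.Y455.SY.A z p w') :=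
    (hnm p hp w').1
  have h5 : ‖v'‖ ≤ c₁⁻¹ * nm F ((chartAt (E d) z).symm p) (Pool.Agent.Y455.SY.A z p v') := by
    rw [inv_mul_eq_div, le_div_iff₀ hc₁, mul_comm]
    exact h3
  have h6 : ‖w'‖ ≤ c₁⁻¹ * nm F ((chartAt (E d) z).symm p) (Pool.Agent.Y455.SY.A z p w') := by
    rw [inv_mul_eq_div, le_div_iff₀ hc₁, mul_comm]
    exact h4
  have n1 : 0 ≤ nm F ((chartAt (E d) z).symm p) (Pool.Agent.Y455.SY.A z p v') := norm_nonneg _
  have n2 : 0 ≤ nm F ((chartAt (E d) z).symm p) (Pool.Agent.Y455.SY.A z p w') := norm_nonneg _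
  calc |pb (chartAt (E d) z).symm σ p ![v', w']|
      ≤ ‖pb (chartAt (E d) z).symm σ p‖ * ‖v'‖ * ‖w'‖ := h1
    _ ≤ |B| * (c₁⁻¹ * nm F ((chartAt (E d) z).symm p) (Pool.Agent.Y455.SY.A z p v')) *
        (c₁⁻¹ * nm F ((chartAt (E d) z).symm p) (Pool.Agent.Y455.SY.A z p w')) := by gcongr
    _ = _ := by ring

/-- nonnegative exponents -/
theorem GrowAt.nonneg {σ : Form d X 2} {K : Set X} {x : X} (hx : x ∈ K) (h : GrowAt σ K x) :
    ∃ a C : ℝ, 0 ≤ a ∧ a < 2 ∧ 0 ≤ C ∧ ∀ᶠ p in 𝓝 (chartAt (E d) x x),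
      (chartAt (E d) x).symm p ∉ K → p ≠ chartAt (E d) x x ∧ ‖p - chartAt (E d) x x‖ ≤ 1 ∧
      ‖pb (chartAt (E d) x).symm σ p‖ ≤ C * ‖p - chartAt (E d) x x‖ ^ (-a) := by
  obtain ⟨a, C, ha, hC⟩ := h
  refine ⟨max a 0, |C|, le_max_right _ _, max_lt ha two_pos, abs_nonneg _, ?_⟩
  filter_upwards [hC, Metric.closedBall_mem_nhds (chartAt (E d) x x) one_pos] with p h1 h2 h3
  have hne : p ≠ chartAt (E d) x x := by
    rintro rfl
    apply h3
    rw [(chartAt (E d) x).left_inv (mem_chart_source (E d) x)]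
    exact hx
  rw [Metric.mem_closedBall, dist_eq_norm] at h2
  have h4 : 0 < ‖p - chartAt (E d) x x‖ := norm_pos_iff.2 (sub_ne_zero.2 hne)
  refine ⟨hne, h2, ?_⟩
  refine (h1 h3).trans ?_
  have h5 : ‖p - chartAt (E d) x x‖ ^ (-a) ≤ ‖p - chartAt (E d) x x‖ ^ (-max a 0) :=
    Real.rpow_le_rpow_of_exponent_ge h4 h2 (neg_le_neg (le_max_left _ _))
  have h6 : 0 ≤ ‖p - chartAt (E d) x x‖ ^ (-a) := by positivity
  calc C * ‖p - chartAt (E d) x x‖ ^ (-a) ≤ |C| * ‖p - chartAt (E d) x x‖ ^ (-a) :=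
        mul_le_mul_of_nonneg_right (le_abs_self _) h6
    _ ≤ _ := mul_le_mul_of_nonneg_left h5 (abs_nonneg _)

theorem bdd_smooth {η : Form d X 2} (hη : IsSmooth η) (x : X) :
    ∃ B : ℝ, 0 ≤ B ∧ ∀ᶠ p in 𝓝 (chartAt (E d) x x), ‖pb (chartAt (E d) x).symm η p‖ ≤ B := by
  have h1 : IsOpen (chartAt (E d) x).target := (chartAt (E d) x).open_target
  have h2 := hη _ (chartAt (E d) x).symm h1 (contMDiffOn_chart_symm (I := 𝓡 d))
  have h4 : ContinuousAt (pb (chartAt (E d) x).symm η) (chartAt (E d) x x) :=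
    h2.continuousOn.continuousAt (h1.mem_nhds (mem_chart_target (E d) x))
  refine ⟨‖pb (chartAt (E d) x).symm η (chartAt (E d) x x)‖ + 1, by positivity, ?_⟩
  filter_upwards [h4.norm.eventually_lt_const (lt_add_one _)] with p hp
  exact hp.le

theorem GrowAt.add {σ η : Form d X 2} {K : Set X} {x : X} (hx : x ∈ K) (h : GrowAt σ K x)
    (hη : IsSmooth η) (s : ℝ) : GrowAt (σ + s • η) K x := by
  obtain ⟨a, C, ha0, ha, hC0, hC⟩ := h.nonneg hx
  obtain ⟨B, hB0, hB⟩ := bdd_smooth hη x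
  refine ⟨a, C + |s| * B, ha, ?_⟩
  filter_upwards [hC, hB] with p h1 h2 h3
  obtain ⟨hne, hle, h4⟩ := h1 h3
  have h5 : 0 < ‖p - chartAt (E d) x x‖ := norm_pos_iff.2 (sub_ne_zero.2 hne)
  have h6 : 1 ≤ ‖p - chartAt (E d) x x‖ ^ (-a) :=
    Real.one_le_rpow_of_pos_of_le_one_of_nonpos h5 hle (by linarith)
  rw [pb_add, pb_smul]
  change ‖pb (chartAt (E d) x).symm σ p + s • pb (chartAt (E d) x).symm η p‖ ≤ _
  refine (norm_add_le _ _).trans ?_
  rw [norm_smul, add_mul]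
  refine add_le_add h4 ?_
  rw [Real.norm_eq_abs]
  calc |s| * ‖pb (chartAt (E d) x).symm η p‖ ≤ |s| * B :=
        mul_le_mul_of_nonneg_left h2 (abs_nonneg _)
    _ ≤ |s| * B * ‖p - chartAt (E d) x x‖ ^ (-a) := by
        have : 0 ≤ |s| * B := by positivity
        nlinarith

/-- unbounded points are isolated -/
theorem grow_isol (hI : S_IMM) {m : ℕ} {F : X → E m} (hF : ContMDiff (𝓡 d) (𝓡 m) ∞ F)
    (hFi : ∀ x, Function.Injective (mfderiv (𝓡 d) (𝓡 m) F x)) {σ : Form d X 2}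
    {K : Set X} {x : X} (hx : x ∈ K) (h : GrowAt σ K x) :
    ∀ᶠ y in 𝓝 x, y ≠ x → BddAt σ K y := by
  obtain ⟨a, C, ha0, ha, hC0, hC⟩ := h.nonneg hx
  have h2 := (chartAt (E d) x).continuousAt (mem_chart_source (E d) x)
  filter_upwards [h2.eventually hC.eventually_nhds,
    (chartAt (E d) x).open_source.mem_nhds (mem_chart_source (E d) x)] with y hy hys hyx
  have hne : chartAt (E d) x y ≠ chartAt (E d) x x := fun h =>
    hyx ((chartAt (E d) x).injOn hys (mem_chart_source (E d) x) h)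
  have h5 : 0 < ‖chartAt (E d) x y - chartAt (E d) x x‖ := norm_pos_iff.2 (sub_ne_zero.2 hne)
  refine bdd_of_chart hI hF hFi x hys
    (B := C * (‖chartAt (E d) x y - chartAt (E d) x x‖ / 2) ^ (-a)) ?_
  have h6 : ContinuousAt (fun p : E d => ‖p - chartAt (E d) x x‖) (chartAt (E d) x y) :=
    (continuous_id.sub continuous_const).norm.continuousAt
  filter_upwards [hy, h6.eventually_const_lt (half_lt_self h5)] with p h7 h8 h9
  refine (h7 h9).2.2.trans (mul_le_mul_of_nonneg_left ?_ hC0)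
  exact Real.rpow_le_rpow_of_nonpos (by positivity) h8.le (by linarith)

/-- there are finitely many unbounded points -/
theorem grow_fin [CompactSpace X] (hI : S_IMM) {m : ℕ} {F : X → E m}
    (hF : ContMDiff (𝓡 d) (𝓡 m) ∞ F)
    (hFi : ∀ x, Function.Injective (mfderiv (𝓡 d) (𝓡 m) F x)) {σ : Form d X 2}
    {K : Set X} (hK : IsClosed K) (hσ : SmoothOff σ K) (h : ∀ x ∈ K, GrowAt σ K x) :
    {x | ¬ BddAt σ K x}.Finite := by
  have h1 : ∀ x : X, {y | y ≠ x → BddAt σ K y} ∈ 𝓝 x := by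
    intro x
    by_cases hx : x ∈ K
    · exact grow_isol hI hF hFi hx (h x hx)
    · filter_upwards [hK.isOpen_compl.mem_nhds hx] with y hy _
      exact bdd_offK hK hσ hy
  obtain ⟨t, ht⟩ := (isCompact_univ (X := X)).elim_nhds_subcover _ (fun x _ => h1 x)
  refine t.finite_toSet.subset fun y hy => ?_
  obtain ⟨x, hxt, hxy⟩ := mem_iUnion₂.1 (ht.2 (mem_univ y))
  by_cases hyx : y = x
  · rw [hyx]; exact hxt
  · exact absurd (hxy hyx) hy

/-- making the form uniformly taming -/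
theorem globP [CompactSpace X] {m : ℕ} {F : X → E m} (hF : ContMDiff (𝓡 d) (𝓡 m) ∞ F)
    (hFi : ∀ x, Function.Injective (mfderiv (𝓡 d) (𝓡 m) F x)) {J : End d X}
    (hJ : IsAlmostComplex J) {σ η : Form d X 2} {K : Set X} (hσs : SmoothOff σ K)
    (hσd : IsDOff σ 0 K) (hηs : IsSmooth η) (hηd : IsClosedForm η)
    (hnn : ∀ x, x ∉ K → ∀ v : TangentSpace (𝓡 d) x, 0 ≤ σ x ![v, J x v])
    (hut : ∀ x, UTAt σ J K x ∨ TamesAt η J x) : ∃ s : ℝ, 0 < s ∧ UP F J (σ + s • η) K := by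
  obtain ⟨ε, hε, hpos⟩ := unif (isCompact_univ (X := X))
    (fun ε y => ∀ s : ℝ, 0 < s → s ≤ ε → y ∉ K →
      ∀ v : TangentSpace (𝓡 d) y, ε * s * nm F y v ^ 2 ≤ (σ + s • η) y ![v, J y v])
    (fun ε ε' y hle hp s hs hsε hy v => by
      refine le_trans ?_ (hp s hs (hsε.trans hle) hy v)
      exact mul_le_mul_of_nonneg_right (mul_le_mul_of_nonneg_right hle hs.le) (sq_nonneg _))
    (fun x _ => pos_near Pool.Agent.Y44.SY.t_IMM Pool.Agent.Y44.SY.t_QB F hF hFi J hJ σ η K hηs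
      hnn x (hut x))
  refine ⟨ε, hε, ?_, ?_,
    ⟨ε * ε, by positivity, fun x hx v => hpos x (mem_univ x) ε hε le_rfl hx v⟩⟩
  · intro U φ hU hφ hUK
    rw [pb_add, pb_smul]
    exact (hσs U φ hU hφ hUK).add (contDiffOn_const.smul (hηs U φ hU hφ))
  · intro U φ hU hφ hUK p hp
    have h1 : DifferentiableAt ℝ (pb φ σ) p :=
      ((hσs U φ hU hφ hUK).contDiffAt (hU.mem_nhds hp)).differentiableAt (by simp)
    have h2 : DifferentiableAt ℝ (pb φ (ε • η)) p := (hηs.smul ε).diffAt hU hφ hp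
    rw [pb_add, extDeriv_add h1 h2, hσd U φ hU hφ hUK p hp, pb_smul, extDeriv_smul,
      hηd U φ hU hφ p hp, pb_zero]
    simp

/-- removing the unbounded points one after the other -/
theorem cure [T2Space X] (hd : 3 ≤ d) {m : ℕ} {F : X → E m} (hF : ContMDiff (𝓡 d) (𝓡 m) ∞ F)
    (hFi : ∀ x, Function.Injective (mfderiv (𝓡 d) (𝓡 m) F x)) {J : End d X}
    (hJ : IsAlmostComplex J) {U : Set X} (hU : IsOpen U) (S : Finset X) :
    ∀ (K : Set X) (w : Form d X 2), IsClosed K → K ⊆ U →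
    (∀ x₀ : X, μH[(d : ℝ) - 1] (chartAt (E d) x₀ '' (K ∩ (chartAt (E d) x₀).source)) = 0) →
    UP F J w K → (∀ x, x ∉ S → BddAt w K x) → (∀ x ∈ S, x ∈ K ∧ GrowAt w K x) →
    ∃ (K' : Set X) (w' : Form d X 2), IsClosed K' ∧ K' ⊆ K ∧ UP F J w' K' ∧
      (∀ x, BddAt w' K' x) ∧ ∀ x, x ∉ U → w' x = w x := by
  classical
  induction S using Finset.induction_on with
  | empty =>
    intro K w hK _ _ hUP hb _
    exact ⟨K, w, hK, Subset.rfl, hUP, fun x => hb x (Finset.notMem_empty x), fun x _ => rfl⟩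
  | insert z T hzT ih =>
    intro K w hK hKU hH hUP hb hS
    have hTo : IsOpen ((T : Set X)ᶜ) := T.finite_toSet.isClosed.isOpen_compl
    obtain ⟨hzK, hgz⟩ := hS z (Finset.mem_insert_self z T)
    obtain ⟨K', O, w', hO, hzO, hOA, hK'K, hK', hUP', hbO, hout⟩ :=
      pt_step hd hF hFi hJ hK hH hUP hzK hgz (hU.inter hTo) ⟨hKU hzK, fun h => hzT h⟩
    obtain ⟨K'', w'', e1, e2, e3, e4, e5⟩ := ih K' w' hK' (hK'K.trans hKU)
      (fun x₀ => measure_mono_null (image_mono (inter_subset_inter_left _ hK'K)) (hH x₀)) hUP'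
      (by
        intro x hx
        by_cases hxO : x ∈ O
        · exact hbO x hxO
        · refine BddAt.congr (hout x hxO) (hb x ?_)
          rw [Finset.mem_insert, not_or]
          exact ⟨fun h => hxO (h ▸ hzO), hx⟩)
      (by
        intro x hx
        have hxO : x ∉ O := fun h => (hOA h).2 hx
        obtain ⟨h1, h2⟩ := hS x (Finset.mem_insert_of_mem hx)
        exact ⟨((hout x hxO).self_of_nhds.2).2 h1, GrowAt.congr (hout x hxO) h2⟩)
    refine ⟨K'', w'', e1, e2.trans hK'K, e3, e4, fun x hx => ?_⟩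
    rw [e5 x hx]
    exact (hout x fun h => hx (hOA h).1).self_of_nhds.1

theorem mainS [CompactSpace X] [T2Space X] (hd : 3 ≤ d) {J : End d X} (hJ : IsAlmostComplex J)
    {K : Set X} (hK : IsClosed K)
    (hH : ∀ x₀ : X, μH[(d : ℝ) - 1] (chartAt (E d) x₀ '' (K ∩ (chartAt (E d) x₀).source)) = 0)
    {σ : Form d X 2} (hσ : SmoothOff σ K) (hσc : IsDOff σ 0 K) (hg : ∀ x ∈ K, GrowAt σ K x)
    (hpos : ∀ x, x ∉ K → ∀ v : TangentSpace (𝓡 d) x, 0 ≤ σ x ![v, J x v])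
    (hthin : ∀ z, ¬ UTAt σ J K z →
      ThinAt2 0 0 J (connectedComponentIn {x | ¬ UTAt σ J K x} z) z)
    {U : Set X} (hU : IsOpen U) (hKU : K ⊆ U) :
    ∃ (α : Form d X 1) (η w : Form d X 2), IsSmooth α ∧ IsSmooth η ∧ IsD α η ∧ IsSmooth w ∧
      IsClosedForm w ∧ (∀ x, TamesAt w J x) ∧ ∀ x, x ∉ U → w x = (σ + η) x := by
  classical
  have hI : S_IMM := Pool.Agent.Y44.SY.t_IMM
  have hd1 : 1 ≤ d := by omega
  obtain ⟨m, F, hF, -, hFi⟩ := exists_embedding_euclidean_of_compact (I := 𝓡 d) (M := X)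
  have hFc : IsClosed {x | ¬ UTAt σ J K x} :=
    (isOpen_UTAt hI hF hFi σ J K).isClosed_compl
  have hne : ∃ v : E d, v ≠ 0 := by
    have : Nontrivial (E d) := by
      haveI : Nonempty (Fin d) := ⟨⟨0, hd1⟩⟩
      infer_instance
    exact exists_ne 0
  have hD2 : D2 (0 : Form d X 2) 0 J {x | ¬ UTAt σ J K x} = {x | ¬ UTAt σ J K x} := by
    apply Subset.antisymm
    · exact fun x hx => hx.1
    · intro x hx
      obtain ⟨v, hv⟩ := hne
      exact ⟨hx, v, hv, rfl, rfl⟩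
  obtain ⟨α, η, hpair, hη⟩ := level2 Pool.Agent.Y484.SY.t_GEN Pool.Agent.Y108.SY.t_PERT2
    Pool.Agent.Y925.SY.t_PLANAR hJ (σ := 0) (θ := 0) IsSmooth.zero IsSmooth.zero hFc (by
      rw [hD2]
      exact hthin)
  obtain ⟨hα, hηs, hαη, hηc⟩ := hpair.props Pool.Agent.Y484.SY.t_GEN
  obtain ⟨s, hs, hUP⟩ := globP hF hFi hJ hσ hσc hηs hηc hpos (by
    intro x
    by_cases h : UTAt σ J K x
    · exact Or.inl h
    · exact Or.inr fun v hv => hη x h v hv rfl rfl)
  have hg1 : ∀ x ∈ K, GrowAt (σ + s • η) K x := fun x hx => (hg x hx).add hx hηs s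
  have hfin := grow_fin hI hF hFi hK hUP.smooth hg1
  obtain ⟨K', w', hK', hK'K, hUP', hb', hw'⟩ := cure hd hF hFi hJ hU hfin.toFinset K
    (σ + s • η) hK hKU hH hUP
    (by
      intro x hx
      by_contra h
      exact hx (hfin.mem_toFinset.2 h))
    (by
      intro x hx
      have h1 : ¬ BddAt (σ + s • η) K x := hfin.mem_toFinset.1 hx
      have hxK : x ∈ K := by
        by_contra h
        exact h1 (bdd_offK hK hUP.smooth h)
      exact ⟨hxK, hg1 x hxK⟩)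
  have hUT' : ∀ x, UTAt w' J K' x := by
    intro x
    rw [UTAt_iff hI hF hFi]
    obtain ⟨c, hc, h⟩ := hUP'.pos
    exact ⟨c, hc, Eventually.of_forall fun y hy v => h y hy v⟩
  obtain ⟨α', η', w, f1, f2, f3, f4, f5, f6, f7⟩ := mainT hI Pool.Agent.Y44.SY.t_QB
    Pool.Agent.Y929.SY.t_GLOB Pool.Agent.Y501.SYP.t_STEP hd1 hJ hK'
    (fun x₀ => measure_mono_null (image_mono (inter_subset_inter_left _ hK'K)) (hH x₀))
    (σ := w') hUP'.smooth hUP'.closed hb'
    (fun x hx v => by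
      obtain ⟨c, hc, h⟩ := hUP'.pos
      exact le_trans (by positivity) (h x hx v))
    (fun z hz => absurd (hUT' z) hz) hU (hK'K.trans hKU)
  refine ⟨s • α + α', s • η + η', w, (hα.smul s).add f1, (hηs.smul s).add f2, ?_, f4, f5, f6, ?_⟩
  · exact (hαη.smul s).add f3 (hα.smul s) f1
  · intro x hx
    rw [f7 x hx]
    change w' x + η' x = σ x + (s • η x + η' x)
    rw [hw' x hx]
    change σ x + s • η x + η' x = _
    rw [add_assoc]

end

end Pool.Agent.Q186.SG
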