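import Pool.Agent.Q186.SG.Cl
import Pool.Agent.Y484.SY.Gen
import Pool.Agent.Y501.SY.Step

/-!
A closed form with a power singularity which is positive near the singularity (helper186).
-/

set_option autoImplicit false

open Set Filter Topology MeasureTheory
open scoped Manifold ContDiff RealInnerProductSpace

noncomputable section

namespace Pool.Agent.Q186.SG

open Pool.Agent.Y501.SY
open Pool.Agent.Y515.SY (Al ext_zero expand2)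
open Pool.Agent.Y484.SY (smooth_one two_le)

variable {d : ℕ}

/-- half of the skew part of `J₀` -/
def Lam (J₀ : E d →L[ℝ] E d) : E d →L[ℝ] E d →L[ℝ] ℝ :=
  LinearMap.toContinuousLinearMap
    { toFun := fun x => (1 / 2 : ℝ) • (innerSL ℝ (J₀ x) - (innerSL ℝ x).comp J₀)
      map_add' := by
        intro x y
        ext v
        simp
        ring
      map_smul' := by
        intro c x
        ext v
        simp
        ring }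

theorem Lam_apply (J₀ : E d →L[ℝ] E d) (x v : E d) :
    Lam J₀ x v = (1 / 2) * (⟪J₀ x, v⟫ - ⟪x, J₀ v⟫) := rfl

theorem Lam_skew (J₀ : E d →L[ℝ] E d) (x v : E d) : Lam J₀ x v = - Lam J₀ v x := by
  rw [Lam_apply, Lam_apply, real_inner_comm (J₀ v) x, real_inner_comm v (J₀ x)]
  ring

/-- the invariant inner product -/
def G (J₀ : E d →L[ℝ] E d) (x v : E d) : ℝ := ⟪x, v⟫ + ⟪J₀ x, J₀ v⟫

theorem G_self (J₀ : E d →L[ℝ] E d) (x : E d) : G J₀ x x = ‖x‖ ^ 2 + ‖J₀ x‖ ^ 2 := by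
  unfold G
  rw [real_inner_self_eq_norm_sq, real_inner_self_eq_norm_sq]

theorem G_ge (J₀ : E d →L[ℝ] E d) (x : E d) : ‖x‖ ^ 2 ≤ G J₀ x x := by
  rw [G_self]
  have := sq_nonneg ‖J₀ x‖
  linarith

theorem G_abs (J₀ : E d →L[ℝ] E d) (x v : E d) :
    |G J₀ x v| ≤ (1 + ‖J₀‖ ^ 2) * ‖x‖ * ‖v‖ := by
  unfold G
  refine (abs_add_le _ _).trans ?_
  have h1 := abs_real_inner_le_norm x v
  have h2 := abs_real_inner_le_norm (J₀ x) (J₀ v)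
  have h3 : ‖J₀ x‖ * ‖J₀ v‖ ≤ (‖J₀‖ * ‖x‖) * (‖J₀‖ * ‖v‖) :=
    mul_le_mul (J₀.le_opNorm x) (J₀.le_opNorm v) (norm_nonneg _) (by positivity)
  nlinarith

theorem G_le (J₀ : E d →L[ℝ] E d) (x : E d) : G J₀ x x ≤ (1 + ‖J₀‖ ^ 2) * ‖x‖ ^ 2 := by
  have h1 := (le_abs_self _).trans (G_abs J₀ x x)
  nlinarith

theorem G_bessel {J₀ : E d →L[ℝ] E d} (hJJ : ∀ v, J₀ (J₀ v) = -v) (y u : E d) :
    G J₀ y u ^ 2 + G J₀ y (J₀ u) ^ 2 ≤ G J₀ y y * G J₀ u u := by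
  set g := G J₀ y u with hg
  set h := G J₀ y (J₀ u) with hh
  set z1 : E d := g • u + h • J₀ u with hz1
  set z2 : E d := g • J₀ u - h • u with hz2
  have e1 : ⟪y, z1⟫ + ⟪J₀ y, z2⟫ = g ^ 2 + h ^ 2 := by
    have a1 : g = ⟪y, u⟫ + ⟪J₀ y, J₀ u⟫ := rfl
    have a2 : h = ⟪y, J₀ u⟫ - ⟪J₀ y, u⟫ := by
      rw [hh]
      unfold G
      rw [hJJ, inner_neg_right]
      ring
    rw [hz1, hz2, inner_add_right, inner_sub_right, inner_smul_right, inner_smul_right,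
      inner_smul_right, inner_smul_right]
    linear_combination (-g) * a1 + (-h) * a2
  have e2 : ‖z1‖ ^ 2 + ‖z2‖ ^ 2 = (g ^ 2 + h ^ 2) * G J₀ u u := by
    rw [G_self, hz1, hz2, norm_add_sq_real, norm_sub_sq_real, norm_smul, norm_smul, norm_smul,
      norm_smul, inner_smul_left, inner_smul_right, inner_smul_left, inner_smul_right,
      real_inner_comm u (J₀ u)]
    simp only [mul_pow, Real.norm_eq_abs, sq_abs, conj_trivial]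
    ring
  have c1 := abs_real_inner_le_norm y z1
  have c2 := abs_real_inner_le_norm (J₀ y) z2
  have e3 : (⟪y, z1⟫ + ⟪J₀ y, z2⟫) ^ 2 ≤ G J₀ y y * (‖z1‖ ^ 2 + ‖z2‖ ^ 2) := by
    rw [G_self]
    have h1 : |⟪y, z1⟫ + ⟪J₀ y, z2⟫| ≤ ‖y‖ * ‖z1‖ + ‖J₀ y‖ * ‖z2‖ :=
      (abs_add_le _ _).trans (add_le_add c1 c2)
    have h2 : (⟪y, z1⟫ + ⟪J₀ y, z2⟫) ^ 2 ≤ (‖y‖ * ‖z1‖ + ‖J₀ y‖ * ‖z2‖) ^ 2 := by
      rw [← sq_abs]
      exact pow_le_pow_left₀ (abs_nonneg _) h1 2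
    nlinarith [sq_nonneg (‖y‖ * ‖z2‖ - ‖J₀ y‖ * ‖z1‖)]
  rw [e1, e2] at e3
  rcases (by positivity : 0 ≤ g ^ 2 + h ^ 2).eq_or_lt with h0 | h0
  · rw [← h0]
    have := G_ge J₀ y
    have := G_ge J₀ u
    have := sq_nonneg ‖y‖
    have := sq_nonneg ‖u‖
    exact mul_nonneg (by linarith) (by linarith)
  · nlinarith

/-- the quadratic function -/
def qf (J₀ : E d →L[ℝ] E d) (p₀ p : E d) : ℝ := G J₀ (p - p₀) (p - p₀)

theorem qf_eq (J₀ : E d →L[ℝ] E d) (p₀ : E d) :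
    qf J₀ p₀ = fun p => ‖p - p₀‖ ^ 2 + ‖J₀ (p - p₀)‖ ^ 2 := by
  funext p
  exact G_self _ _

theorem qf_smooth (J₀ : E d →L[ℝ] E d) (p₀ : E d) : ContDiff ℝ ∞ (qf J₀ p₀) := by
  rw [qf_eq]
  have h1 : ContDiff ℝ ∞ (fun p : E d => p - p₀) := contDiff_id.sub contDiff_const
  exact (h1.norm_sq ℝ).add ((J₀.contDiff.comp h1).norm_sq ℝ)

theorem qf_pos (J₀ : E d →L[ℝ] E d) {p₀ p : E d} (hp : p ≠ p₀) : 0 < qf J₀ p₀ p := by
  have h1 : 0 < ‖p - p₀‖ := norm_pos_iff.2 (sub_ne_zero.2 hp)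
  have h2 := G_ge J₀ (p - p₀)
  unfold qf
  nlinarith [sq_nonneg ‖p - p₀‖]

theorem qf_fderiv (J₀ : E d →L[ℝ] E d) (p₀ p u : E d) :
    fderiv ℝ (qf J₀ p₀) p u = 2 * G J₀ (p - p₀) u := by
  rw [qf_eq]
  have h1 : HasFDerivAt (fun p : E d => p - p₀) (ContinuousLinearMap.id ℝ (E d)) p :=
    (hasFDerivAt_id p).sub_const p₀
  have h2 : HasFDerivAt (fun p : E d => J₀ (p - p₀)) (J₀.comp (ContinuousLinearMap.id ℝ (E d))) p :=
    J₀.hasFDerivAt.comp p h1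
  have h3 : HasFDerivAt (fun p : E d => ‖p - p₀‖ ^ 2 + ‖J₀ (p - p₀)‖ ^ 2) _ p :=
    h1.norm_sq.add h2.norm_sq
  rw [h3.fderiv]
  unfold G
  simp [inner_sub_left]
  ring

/-- the primitive -/
def bet (J₀ : E d →L[ℝ] E d) (f : E d → ℝ) (p₀ : E d) : E d → Al d 1 :=
  fun p => one (f p • Lam J₀ (p - p₀))

theorem bet_smooth {J₀ : E d →L[ℝ] E d} {f : E d → ℝ} {p₀ : E d} {U : Set (E d)}
    (hf : ContDiffOn ℝ ∞ f U) : ContDiffOn ℝ ∞ (bet J₀ f p₀) U := by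
  refine smooth_one (hf.smul ?_)
  exact ((Lam J₀).contDiff.comp (contDiff_id.sub contDiff_const)).contDiffOn

theorem ext_bet {J₀ : E d →L[ℝ] E d} {f : E d → ℝ} {p₀ : E d} {U : Set (E d)}
    (hU : IsOpen U) (hf : ContDiffOn ℝ ∞ f U) {p : E d} (hp : p ∈ U) (u v : E d) :
    extDeriv (bet J₀ f p₀) p ![u, v] = 2 * f p * Lam J₀ u v +
      (fderiv ℝ f p u * Lam J₀ (p - p₀) v - fderiv ℝ f p v * Lam J₀ (p - p₀) u) := by
  have hd : DifferentiableAt ℝ (bet J₀ f p₀) p :=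
    ((bet_smooth hf).contDiffAt (hU.mem_nhds hp)).differentiableAt (by simp)
  have hfd : DifferentiableAt ℝ f p := (hf.contDiffAt (hU.mem_nhds hp)).differentiableAt (by simp)
  have key : ∀ w u : E d, fderiv ℝ (fun q => f q * Lam J₀ (q - p₀) w) p u =
      f p * Lam J₀ u w + Lam J₀ (p - p₀) w * fderiv ℝ f p u := by
    intro w u
    have h1 : HasFDerivAt (fun q : E d => q - p₀) (ContinuousLinearMap.id ℝ (E d)) p :=
      (hasFDerivAt_id p).sub_const p₀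
    have h2 : HasFDerivAt (fun q : E d => Lam J₀ (q - p₀)) ((Lam J₀).comp
        (ContinuousLinearMap.id ℝ (E d))) p := (Lam J₀).hasFDerivAt.comp p h1
    have h3 := h2.clm_apply (hasFDerivAt_const w p)
    have h4 := hfd.hasFDerivAt.mul h3
    have h5 : HasFDerivAt (fun q => f q * Lam J₀ (q - p₀) w) _ p := h4
    rw [h5.fderiv]
    simp
  rw [extDeriv_apply hd, Fin.sum_univ_two]
  have e0 : (fun q => bet J₀ f p₀ q ((0 : Fin 2).removeNth ![u, v])) =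
      fun q => f q * Lam J₀ (q - p₀) v := rfl
  have e1 : (fun q => bet J₀ f p₀ q ((1 : Fin 2).removeNth ![u, v])) =
      fun q => f q * Lam J₀ (q - p₀) u := rfl
  rw [e0, e1]
  simp only [Fin.val_zero, pow_zero, one_smul, Fin.val_one, pow_one, Matrix.cons_val_zero,
    Matrix.cons_val_one]
  rw [key, key, Lam_skew J₀ v u]
  ring

theorem pw_fderiv (J₀ : E d →L[ℝ] E d) {p₀ p : E d} (b : ℝ) (hp : p ≠ p₀) (u : E d) :
    fderiv ℝ (fun x => qf J₀ p₀ x ^ (-b / 2)) p u =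
      -b * qf J₀ p₀ p ^ (-b / 2 - 1) * G J₀ (p - p₀) u := by
  have h1 : HasFDerivAt (qf J₀ p₀) (fderiv ℝ (qf J₀ p₀) p) p :=
    ((qf_smooth J₀ p₀).differentiable (by simp) p).hasFDerivAt
  have h2 : HasFDerivAt (fun x => qf J₀ p₀ x ^ (-b / 2)) _ p :=
    h1.rpow_const (p := -b / 2) (Or.inl (qf_pos J₀ hp).ne')
  rw [h2.fderiv]
  simp only [smul_apply, smul_eq_mul]
  rw [qf_fderiv]
  ring

theorem sq_pw {p₀ p : E d} (b : ℝ) (hp : p ≠ p₀) :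
    (‖p - p₀‖ ^ 2) ^ (-b / 2) = ‖p - p₀‖ ^ (-b) := by
  have h1 : 0 < ‖p - p₀‖ := norm_pos_iff.2 (sub_ne_zero.2 hp)
  rw [← Real.rpow_natCast, ← Real.rpow_mul h1.le]
  congr 1
  push_cast
  ring

theorem q_up (J₀ : E d →L[ℝ] E d) {p₀ p : E d} {b : ℝ} (hb : 0 ≤ b) (hp : p ≠ p₀) :
    qf J₀ p₀ p ^ (-b / 2) ≤ ‖p - p₀‖ ^ (-b) := by
  have h1 : 0 < ‖p - p₀‖ := norm_pos_iff.2 (sub_ne_zero.2 hp)
  rw [← sq_pw b hp]
  exact Real.rpow_le_rpow_of_nonpos (by positivity) (G_ge J₀ _) (by linarith)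

theorem q_low (J₀ : E d →L[ℝ] E d) {p₀ p : E d} {b : ℝ} (hb : 0 ≤ b) (hp : p ≠ p₀) :
    (1 + ‖J₀‖ ^ 2) ^ (-b / 2) * ‖p - p₀‖ ^ (-b) ≤ qf J₀ p₀ p ^ (-b / 2) := by
  have h1 : 0 < ‖p - p₀‖ := norm_pos_iff.2 (sub_ne_zero.2 hp)
  rw [← sq_pw b hp, ← Real.mul_rpow (by positivity) (by positivity)]
  exact Real.rpow_le_rpow_of_nonpos (qf_pos J₀ hp) (G_le J₀ _) (by linarith)

theorem q_mul (J₀ : E d →L[ℝ] E d) {p₀ p : E d} (b : ℝ) (hp : p ≠ p₀) :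
    qf J₀ p₀ p ^ (-b / 2 - 1) * qf J₀ p₀ p = qf J₀ p₀ p ^ (-b / 2) := by
  have h1 := qf_pos J₀ hp
  rw [Real.rpow_sub_one h1.ne', div_mul_cancel₀ _ h1.ne']

section near

variable {J₀ : E d →L[ℝ] E d} {f : E d → ℝ} {p₀ p : E d} {U : Set (E d)} {b : ℝ}

theorem near_bd (hU : IsOpen U) (hf : ContDiffOn ℝ ∞ f U) (hp : p ∈ U) (hp₀ : p ≠ p₀)
    (hb : 0 ≤ b) (he : f =ᶠ[𝓝 p] fun x => qf J₀ p₀ x ^ (-b / 2)) :
    ‖extDeriv (bet J₀ f p₀) p‖ ≤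
      (2 * ‖Lam J₀‖ + 2 * b * (1 + ‖J₀‖ ^ 2) * ‖Lam J₀‖) * ‖p - p₀‖ ^ (-b) := by
  have h1 : 0 < ‖p - p₀‖ := norm_pos_iff.2 (sub_ne_zero.2 hp₀)
  have hP : 0 < ‖p - p₀‖ ^ (-b) := Real.rpow_pos_of_pos h1 _
  have hq := qf_pos J₀ hp₀
  have hL : ∀ x w : E d, |Lam J₀ x w| ≤ ‖Lam J₀‖ * ‖x‖ * ‖w‖ := fun x w => by
    rw [← Real.norm_eq_abs]
    exact (Lam J₀).le_opNorm₂ x w
  refine norm_le2 _ (by positivity) fun u v => ?_
  rw [ext_bet hU hf hp, he.fderiv_eq, he.eq_of_nhds, pw_fderiv J₀ b hp₀, pw_fderiv J₀ b hp₀]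
  set Q : ℝ := qf J₀ p₀ p ^ (-b / 2 - 1) with hQ
  have hQ0 : 0 ≤ Q := (Real.rpow_pos_of_pos hq _).le
  have hQm : Q * ‖p - p₀‖ ^ 2 ≤ ‖p - p₀‖ ^ (-b) := by
    calc Q * ‖p - p₀‖ ^ 2 ≤ Q * qf J₀ p₀ p := mul_le_mul_of_nonneg_left (G_ge J₀ _) hQ0
      _ = qf J₀ p₀ p ^ (-b / 2) := q_mul J₀ b hp₀
      _ ≤ _ := q_up J₀ hb hp₀
  have t1 : |2 * qf J₀ p₀ p ^ (-b / 2) * Lam J₀ u v| ≤
      2 * ‖p - p₀‖ ^ (-b) * (‖Lam J₀‖ * ‖u‖ * ‖v‖) := by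
    rw [abs_mul, abs_of_nonneg (by positivity)]
    exact mul_le_mul (mul_le_mul_of_nonneg_left (q_up J₀ hb hp₀) (by norm_num)) (hL u v)
      (abs_nonneg _) (by positivity)
  have t2 : ∀ u v : E d, |-b * Q * G J₀ (p - p₀) u * Lam J₀ (p - p₀) v| ≤
      b * (1 + ‖J₀‖ ^ 2) * ‖Lam J₀‖ * ‖p - p₀‖ ^ (-b) * ‖u‖ * ‖v‖ := by
    intro u v
    rw [abs_mul, abs_mul, abs_mul, abs_neg, abs_of_nonneg hb, abs_of_nonneg hQ0]
    calc b * Q * |G J₀ (p - p₀) u| * |Lam J₀ (p - p₀) v|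
        ≤ b * Q * ((1 + ‖J₀‖ ^ 2) * ‖p - p₀‖ * ‖u‖) * (‖Lam J₀‖ * ‖p - p₀‖ * ‖v‖) :=
          mul_le_mul (mul_le_mul_of_nonneg_left (G_abs J₀ _ _) (by positivity)) (hL _ _)
            (abs_nonneg _) (by positivity)
      _ = b * (1 + ‖J₀‖ ^ 2) * ‖Lam J₀‖ * ‖u‖ * ‖v‖ * (Q * ‖p - p₀‖ ^ 2) := by ring
      _ ≤ b * (1 + ‖J₀‖ ^ 2) * ‖Lam J₀‖ * ‖u‖ * ‖v‖ * ‖p - p₀‖ ^ (-b) :=
          mul_le_mul_of_nonneg_left hQm (by positivity)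
      _ = _ := by ring
  have t3 := t2 u v
  have t4 := t2 v u
  refine (abs_add_le _ _).trans ?_
  have t5 := abs_sub (-b * Q * G J₀ (p - p₀) u * Lam J₀ (p - p₀) v)
    (-b * Q * G J₀ (p - p₀) v * Lam J₀ (p - p₀) u)
  linarith

theorem near_low (hJJ : ∀ v, J₀ (J₀ v) = -v) (hU : IsOpen U) (hf : ContDiffOn ℝ ∞ f U)
    (hp : p ∈ U) (hp₀ : p ≠ p₀) (hb : 0 ≤ b) (hb2 : b ≤ 2)
    (he : f =ᶠ[𝓝 p] fun x => qf J₀ p₀ x ^ (-b / 2)) (u : E d) :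
    (1 - b / 2) * (1 + ‖J₀‖ ^ 2) ^ (-b / 2) * ‖p - p₀‖ ^ (-b) * ‖u‖ ^ 2 ≤
      extDeriv (bet J₀ f p₀) p ![u, J₀ u] := by
  have hq := qf_pos J₀ hp₀
  rw [ext_bet hU hf hp, he.fderiv_eq, he.eq_of_nhds, pw_fderiv J₀ b hp₀, pw_fderiv J₀ b hp₀]
  set Q : ℝ := qf J₀ p₀ p ^ (-b / 2 - 1) with hQ
  have hQ0 : 0 ≤ Q := (Real.rpow_pos_of_pos hq _).le
  set y : E d := p - p₀ with hy
  have a1 : Lam J₀ u (J₀ u) = (1 / 2) * G J₀ u u := by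
    rw [Lam_apply, G, hJJ, inner_neg_right]
    ring
  have a2 : Lam J₀ y (J₀ u) = (1 / 2) * G J₀ y u := by
    rw [Lam_apply, G, hJJ, inner_neg_right]
    ring
  have a3 : Lam J₀ y u = -(1 / 2) * G J₀ y (J₀ u) := by
    rw [Lam_apply, G, hJJ, inner_neg_right]
    ring
  rw [a1, a2, a3]
  have h1 := G_bessel hJJ y u
  have h2 : Q * G J₀ y y = qf J₀ p₀ p ^ (-b / 2) := q_mul J₀ b hp₀
  have h3 : Q * (G J₀ y u ^ 2 + G J₀ y (J₀ u) ^ 2) ≤ qf J₀ p₀ p ^ (-b / 2) * G J₀ u u := by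
    rw [← h2, mul_assoc]
    exact mul_le_mul_of_nonneg_left h1 hQ0
  have h4 : b / 2 * (Q * (G J₀ y u ^ 2 + G J₀ y (J₀ u) ^ 2)) ≤
      b / 2 * (qf J₀ p₀ p ^ (-b / 2) * G J₀ u u) :=
    mul_le_mul_of_nonneg_left h3 (by linarith)
  have h5 : (1 - b / 2) * ((1 + ‖J₀‖ ^ 2) ^ (-b / 2) * ‖y‖ ^ (-b) * ‖u‖ ^ 2) ≤
      (1 - b / 2) * (qf J₀ p₀ p ^ (-b / 2) * G J₀ u u) := by
    refine mul_le_mul_of_nonneg_left ?_ (by linarith)
    exact mul_le_mul (q_low J₀ hb hp₀) (G_ge J₀ u) (by positivity) (by positivity)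
  have h6 : 2 * qf J₀ p₀ p ^ (-b / 2) * (1 / 2 * G J₀ u u) +
      (-b * Q * G J₀ y u * (1 / 2 * G J₀ y u) -
        -b * Q * G J₀ y (J₀ u) * (-(1 / 2) * G J₀ y (J₀ u))) =
      qf J₀ p₀ p ^ (-b / 2) * G J₀ u u -
        b / 2 * (Q * (G J₀ y u ^ 2 + G J₀ y (J₀ u) ^ 2)) := by ring
  rw [h6]
  linarith

end near

theorem Al_sub (a : Al d 2) (v w w' : E d) : a ![v, w] = a ![v, w'] + a ![v, w - w'] := by
  have h := a.map_update_add ![v, w'] 1 w' (w - w')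
  have e1 : Function.update ![v, w'] 1 (w' + (w - w')) = ![v, w] := by
    funext i
    fin_cases i <;> simp
  have e2 : Function.update ![v, w'] 1 w' = ![v, w'] := by
    funext i
    fin_cases i <;> simp
  have e3 : Function.update ![v, w'] 1 (w - w') = ![v, w - w'] := by
    funext i
    fin_cases i <;> simp
  rw [e1, e2, e3] at h
  exact h

/-- the compensating form -/
theorem mod_form {p₀ : E d} {r b : ℝ} (hr : 0 < r) (hb : 0 ≤ b) (hb2 : b < 2)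
    {Js : E d → (E d →L[ℝ] E d)} (hJ : ContinuousOn Js (Metric.ball p₀ r))
    (hJJ : ∀ v, Js p₀ (Js p₀ v) = -v) :
    ∃ (A : E d → Al d 2) (C c M : ℝ), 0 ≤ C ∧ 0 < c ∧ 0 ≤ M ∧
      ContDiffOn ℝ ∞ A {p₀}ᶜ ∧ (∀ p, p ≠ p₀ → extDeriv A p = 0) ∧
      (∀ p, p ∉ Metric.ball p₀ (r / 2) → A p = 0) ∧
      (∀ p ∈ Metric.ball p₀ r, p ≠ p₀ → ‖A p‖ ≤ C * ‖p - p₀‖ ^ (-b)) ∧
      ∀ p ∈ Metric.ball p₀ r, p ≠ p₀ → ∀ v : E d,
        c * ‖p - p₀‖ ^ (-b) * ‖v‖ ^ 2 - M * ‖v‖ ^ 2 ≤ A p ![v, Js p v] := by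
  obtain ⟨θ, hθ1, hθ2⟩ : ∃ θ : ContDiffBump p₀, θ.rOut = r / 4 ∧ θ.rIn = r / 8 :=
    ⟨⟨r / 8, r / 4, by positivity, by linarith⟩, rfl, rfl⟩
  set J₀ := Js p₀ with hJ₀
  obtain ⟨f, hfd⟩ : ∃ f : E d → ℝ, f = fun p => θ p * qf J₀ p₀ p ^ (-b / 2) := ⟨_, rfl⟩
  have hU : IsOpen ({p₀}ᶜ : Set (E d)) := isOpen_compl_singleton
  have hf : ContDiffOn ℝ ∞ f {p₀}ᶜ := by
    rw [hfd]
    intro p hp
    exact (θ.contDiff.contDiffAt.mul
      ((qf_smooth J₀ p₀).contDiffAt.rpow_const_of_ne (qf_pos J₀ hp).ne')).contDiffWithinAt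
  have hβ := bet_smooth (J₀ := J₀) (p₀ := p₀) hf
  obtain ⟨A, hA⟩ : ∃ A : E d → Al d 2, A = extDeriv (bet J₀ f p₀) := ⟨_, rfl⟩
  have hAs : ContDiffOn ℝ ∞ A {p₀}ᶜ := by
    rw [hA]
    exact (ContinuousAlternatingMap.alternatizeUncurryFinCLM ℝ (E d) ℝ).contDiff.comp_contDiffOn
      (hβ.fderiv_of_isOpen hU (m := ∞) (by simp))
  have hAc : ∀ p, p ≠ p₀ → extDeriv A p = 0 := by
    intro p hp
    rw [hA]
    exact extDeriv_extDeriv_apply (r := ∞) (hβ.contDiffAt (hU.mem_nhds hp)) two_le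
  have hA0 : ∀ p, p ∉ Metric.ball p₀ (r / 2) → A p = 0 := by
    intro p hp
    have h1 : (Metric.closedBall p₀ (r / 4))ᶜ ∈ 𝓝 p := by
      refine Metric.isClosed_closedBall.isOpen_compl.mem_nhds fun h => hp ?_
      rw [Metric.mem_closedBall] at h
      rw [Metric.mem_ball]
      linarith
    have h2 : bet J₀ f p₀ =ᶠ[𝓝 p] fun _ => 0 := by
      filter_upwards [h1] with q hq
      have h3 : θ q = 0 := by
        rw [← Function.notMem_support, θ.support_eq, hθ1]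
        exact fun h => hq (Metric.ball_subset_closedBall h)
      have h4 : f q = 0 := by
        rw [hfd]
        change θ q * _ = 0
        rw [h3, zero_mul]
      change one (f q • Lam J₀ (q - p₀)) = 0
      rw [h4, zero_smul]
      rfl
    rw [hA, h2.extDeriv_eq]
    unfold extDeriv
    rw [fderiv_fun_const]
    exact map_zero (ContinuousAlternatingMap.alternatizeUncurryFinCLM ℝ (E d) ℝ)
  have hev : ∀ p ∈ Metric.ball p₀ (r / 8), f =ᶠ[𝓝 p] fun x => qf J₀ p₀ x ^ (-b / 2) := by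
    intro p hp
    have h1 := θ.eventuallyEq_one_of_mem_ball (x := p) (by rw [hθ2]; exact hp)
    filter_upwards [h1] with q hq
    rw [hfd]
    simp only [hq, Pi.one_apply, one_mul]
  -- the bound away from the singularity
  have hN : IsCompact (Metric.closedBall p₀ (r / 2) \ Metric.ball p₀ (r / 8)) :=
    (isCompact_closedBall _ _).diff Metric.isOpen_ball
  have hNU : Metric.closedBall p₀ (r / 2) \ Metric.ball p₀ (r / 8) ⊆ {p₀}ᶜ := by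
    rintro p hp rfl
    exact hp.2 (Metric.mem_ball_self (by positivity))
  obtain ⟨B₀, hB₀⟩ := hN.exists_bound_of_continuousOn (hAs.continuousOn.mono hNU)
  set C₁ : ℝ := 2 * ‖Lam J₀‖ + 2 * b * (1 + ‖J₀‖ ^ 2) * ‖Lam J₀‖ with hC₁
  have hC₁0 : 0 ≤ C₁ := by positivity
  have hpw : ∀ p ∈ Metric.ball p₀ r, p ≠ p₀ → r ^ (-b) ≤ ‖p - p₀‖ ^ (-b) := by
    intro p hp hp₀
    have h1 : 0 < ‖p - p₀‖ := norm_pos_iff.2 (sub_ne_zero.2 hp₀)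
    rw [Metric.mem_ball, dist_eq_norm] at hp
    exact Real.rpow_le_rpow_of_nonpos h1 hp.le (by linarith)
  have hrb : 0 < r ^ (-b) := Real.rpow_pos_of_pos hr _
  obtain ⟨C, hC⟩ : ∃ C : ℝ, C = C₁ + |B₀| / r ^ (-b) := ⟨_, rfl⟩
  have hC0 : 0 ≤ C := by rw [hC]; positivity
  have hbd : ∀ p ∈ Metric.ball p₀ r, p ≠ p₀ → ‖A p‖ ≤ C * ‖p - p₀‖ ^ (-b) := by
    intro p hp hp₀
    have h1 := hpw p hp hp₀
    have h0 : 0 ≤ ‖p - p₀‖ ^ (-b) := by positivity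
    by_cases h2 : p ∈ Metric.ball p₀ (r / 8)
    · have h3 := near_bd hU hf (p := p) hp₀ hp₀ hb (hev p h2)
      rw [← hA] at h3
      refine h3.trans (mul_le_mul_of_nonneg_right ?_ h0)
      rw [hC]
      have : 0 ≤ |B₀| / r ^ (-b) := by positivity
      linarith
    · by_cases h3 : p ∈ Metric.ball p₀ (r / 2)
      · have h4 := hB₀ p ⟨Metric.ball_subset_closedBall h3, h2⟩
        have h5 : |B₀| / r ^ (-b) * r ^ (-b) = |B₀| := div_mul_cancel₀ _ hrb.ne'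
        have h6 : |B₀| / r ^ (-b) * r ^ (-b) ≤ |B₀| / r ^ (-b) * ‖p - p₀‖ ^ (-b) :=
          mul_le_mul_of_nonneg_left h1 (by positivity)
        rw [hC, add_mul]
        have h7 : 0 ≤ C₁ * ‖p - p₀‖ ^ (-b) := by positivity
        have h8 := le_abs_self B₀
        linarith
      · rw [hA0 p h3, norm_zero]
        positivity
  obtain ⟨c, hc⟩ : ∃ c : ℝ, c = (1 - b / 2) * (1 + ‖J₀‖ ^ 2) ^ (-b / 2) / 2 := ⟨_, rfl⟩
  have hc0 : 0 < c := by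
    rw [hc]
    have : 0 < 1 - b / 2 := by linarith
    positivity
  -- the radius
  have hJ0 : ContinuousAt Js p₀ :=
    hJ.continuousAt (Metric.ball_mem_nhds _ hr)
  obtain ⟨ρ, hρ, hρ1⟩ := Metric.continuousAt_iff.1 hJ0 (c / (C + 1)) (by positivity)
  obtain ⟨ρ', hρ', hρ'1, hρ'2⟩ : ∃ ρ' : ℝ, 0 < ρ' ∧ ρ' ≤ ρ ∧ ρ' ≤ r / 8 :=
    ⟨min ρ (r / 8), lt_min hρ (by positivity), min_le_left _ _, min_le_right _ _⟩
  obtain ⟨S₀, hS₀⟩ := (isCompact_closedBall p₀ (r / 2)).exists_bound_of_continuousOn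
    (hJ.mono (Metric.closedBall_subset_ball (by linarith)))
  set S : ℝ := max S₀ 0 with hSdef
  have hS0 : 0 ≤ S := le_max_right _ _
  obtain ⟨M, hM⟩ : ∃ M : ℝ, M = (c + C * S) * ρ' ^ (-b) := ⟨_, rfl⟩
  have hM0 : 0 ≤ M := by rw [hM]; positivity
  refine ⟨A, C, c, M, hC0, hc0, hM0, hAs, hAc, hA0, hbd, ?_⟩
  intro p hp hp₀ v
  have hv2 : 0 ≤ ‖v‖ ^ 2 := sq_nonneg _
  have hP0 : 0 ≤ ‖p - p₀‖ ^ (-b) := by positivity
  have h1 : 0 < ‖p - p₀‖ := norm_pos_iff.2 (sub_ne_zero.2 hp₀)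
  by_cases h2 : ‖p - p₀‖ < ρ'
  · have h3 : p ∈ Metric.ball p₀ (r / 8) := by
      rw [Metric.mem_ball, dist_eq_norm]
      linarith
    have h4 := near_low hJJ hU hf (p := p) hp₀ hp₀ hb hb2.le (hev p h3) v
    rw [← hA] at h4
    have h5 := hρ1 (x := p) (by rw [dist_eq_norm]; linarith)
    rw [dist_eq_norm] at h5
    have h6 := Al_sub (A p) v (Js p v) (J₀ v)
    have h7 : |A p ![v, Js p v - J₀ v]| ≤ c * ‖p - p₀‖ ^ (-b) * ‖v‖ ^ 2 := by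
      refine (le_norm2 (A p) v _).trans ?_
      have h8 : ‖Js p v - J₀ v‖ ≤ c / (C + 1) * ‖v‖ := by
        have : Js p v - J₀ v = (Js p - J₀) v := rfl
        rw [this]
        exact ((Js p - J₀).le_opNorm v).trans
          (mul_le_mul_of_nonneg_right h5.le (norm_nonneg _))
      have h9 : C * (c / (C + 1)) ≤ c := by
        rw [mul_div_assoc', div_le_iff₀ (by positivity)]
        nlinarith
      calc ‖A p‖ * ‖v‖ * ‖Js p v - J₀ v‖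
          ≤ (C * ‖p - p₀‖ ^ (-b)) * ‖v‖ * (c / (C + 1) * ‖v‖) :=
            mul_le_mul (mul_le_mul_of_nonneg_right (hbd p hp hp₀) (norm_nonneg _)) h8
              (norm_nonneg _) (by positivity)
        _ = (C * (c / (C + 1))) * (‖p - p₀‖ ^ (-b) * ‖v‖ ^ 2) := by ring
        _ ≤ c * (‖p - p₀‖ ^ (-b) * ‖v‖ ^ 2) :=
            mul_le_mul_of_nonneg_right h9 (by positivity)
        _ = _ := by ring
    have h10 := (abs_le.1 h7).1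
    have h11 : (1 - b / 2) * (1 + ‖J₀‖ ^ 2) ^ (-b / 2) * ‖p - p₀‖ ^ (-b) * ‖v‖ ^ 2 =
        2 * (c * ‖p - p₀‖ ^ (-b) * ‖v‖ ^ 2) := by
      rw [hc]
      ring
    have h12 : 0 ≤ M * ‖v‖ ^ 2 := by positivity
    rw [h11] at h4
    rw [h6]
    linarith
  · rw [not_lt] at h2
    have h3 : ‖p - p₀‖ ^ (-b) ≤ ρ' ^ (-b) :=
      Real.rpow_le_rpow_of_nonpos hρ' h2 (by linarith)
    have h4 : |A p ![v, Js p v]| ≤ C * S * ρ' ^ (-b) * ‖v‖ ^ 2 := by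
      by_cases h5 : p ∈ Metric.ball p₀ (r / 2)
      · refine (le_norm2 (A p) v _).trans ?_
        have h6 : ‖Js p v‖ ≤ S * ‖v‖ := ((Js p).le_opNorm v).trans
          (mul_le_mul_of_nonneg_right
            ((hS₀ p (Metric.ball_subset_closedBall h5)).trans (le_max_left _ _)) (norm_nonneg _))
        have h7 : ‖A p‖ ≤ C * ρ' ^ (-b) :=
          (hbd p hp hp₀).trans (mul_le_mul_of_nonneg_left h3 hC0)
        calc ‖A p‖ * ‖v‖ * ‖Js p v‖ ≤ (C * ρ' ^ (-b)) * ‖v‖ * (S * ‖v‖) :=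
              mul_le_mul (mul_le_mul_of_nonneg_right h7 (norm_nonneg _)) h6 (norm_nonneg _)
                (by positivity)
          _ = _ := by ring
      · rw [hA0 p h5]
        have : (0 : Al d 2) ![v, Js p v] = 0 := rfl
        rw [this, abs_zero]
        positivity
    have h5 := (abs_le.1 h4).1
    have h6 : c * ‖p - p₀‖ ^ (-b) * ‖v‖ ^ 2 ≤ c * ρ' ^ (-b) * ‖v‖ ^ 2 :=
      mul_le_mul_of_nonneg_right (mul_le_mul_of_nonneg_left h3 hc0.le) hv2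
    have h7 : M * ‖v‖ ^ 2 = c * ρ' ^ (-b) * ‖v‖ ^ 2 + C * S * ρ' ^ (-b) * ‖v‖ ^ 2 := by
      rw [hM]
      ring
    linarith

end Pool.Agent.Q186.SG
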