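import Pool.Agent.Q186.SG.Loc
import Pool.Agent.Y501.SY.FinalT

/-!
Regularization near one unbounded singular point (helper186; adapted from
`Pool.Agent.Y501.SY.Step` and `Pool.Agent.Y501.SY.MainT`).
-/

set_option autoImplicit false
set_option linter.unusedSectionVars false

open Set Filter Topology MeasureTheory
open scoped Manifold ContDiff

noncomputable section

namespace Pool.Agent.Q186.SG

open Pool.Agent.Y501.SY
open Pool.Agent.Y455.SY (AB BA A_surj Q Q_eq)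
open Pool.Agent.Y929.SY (ev_of_chart ev_to_chart near pb_apply2)

section

variable {d : ℕ} {X : Type} [TopologicalSpace X] [ChartedSpace (E d) X]

/-- the form grows slower than the inverse square of the distance to `x` -/
def GrowAt (σ : Form d X 2) (K : Set X) (x : X) : Prop :=
  ∃ a C : ℝ, a < 2 ∧ ∀ᶠ p in 𝓝 (chartAt (E d) x x), (chartAt (E d) x).symm p ∉ K →
    ‖pb (chartAt (E d) x).symm σ p‖ ≤ C * ‖p - chartAt (E d) x x‖ ^ (-a)

/-- smooth, closed and uniformly taming forms on the complement of `K` -/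
structure UP {m : ℕ} (F : X → E m) (J : End d X) (σ : Form d X 2) (K : Set X) : Prop where
  smooth : SmoothOff σ K
  closed : IsDOff σ 0 K
  pos : ∃ c : ℝ, 0 < c ∧ ∀ x, x ∉ K → ∀ v : TangentSpace (𝓡 d) x,
    c * nm F x v ^ 2 ≤ σ x ![v, J x v]

variable [IsManifold (𝓡 d) ∞ X]

theorem inChart_sq {J : End d X} (hJ : IsAlmostComplex J) (x : X) {p : E d}
    (hp : p ∈ (chartAt (E d) x).target) (v : E d) :
    inChart J x p (inChart J x p v) = -v := by
  have h1 : ∀ w : E d, (Pool.Agent.Y455.SY.A x p) (inChart J x p w) =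
      J ((chartAt (E d) x).symm p) (Pool.Agent.Y455.SY.A x p w) := fun w => AB x hp _
  have h2 : Pool.Agent.Y455.SY.A x p (inChart J x p (inChart J x p v)) =
      -(Pool.Agent.Y455.SY.A x p v) := by
    rw [h1, h1]
    exact hJ.sq _ _
  have h3 := congrArg (Pool.Agent.Y455.SY.B x p) h2
  rw [map_neg, BA x hp, BA x hp] at h3
  exact h3

/-- a chart independent form of boundedness -/
theorem BddAt_iff (hI : S_IMM) {m : ℕ} {F : X → E m} (hF : ContMDiff (𝓡 d) (𝓡 m) ∞ F)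
    (hFi : ∀ x, Function.Injective (mfderiv (𝓡 d) (𝓡 m) F x)) (σ : Form d X 2)
    (K : Set X) (x : X) :
    BddAt σ K x ↔ ∃ B : ℝ, 0 ≤ B ∧ ∀ᶠ y in 𝓝 x, y ∉ K → ∀ v w : TangentSpace (𝓡 d) y,
      |σ y ![v, w]| ≤ B * nm F y v * nm F y w := by
  have htar : (chartAt (E d) x).target ∈ 𝓝 (chartAt (E d) x x) :=
    (chartAt (E d) x).open_target.mem_nhds (mem_chart_target (E d) x)
  obtain ⟨N, hN, hN1, hN2⟩ := near htar
  obtain ⟨c₁, C₁, hc₁, hC₁, hnm⟩ := hI d m X F hF hFi x N hN hN2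
  constructor
  · rintro ⟨B, hB⟩
    refine ⟨|B| * c₁⁻¹ * c₁⁻¹, by positivity, ev_of_chart (d := d) ?_⟩
    filter_upwards [hN1, hB] with p hp hpB hpK v w
    obtain ⟨v', rfl⟩ := A_surj x (hN2 hp) v
    obtain ⟨w', rfl⟩ := A_surj x (hN2 hp) w
    rw [← pb_apply2]
    have h1 := le_norm2 (pb (chartAt (E d) x).symm σ p) v' w'
    have h2 : ‖pb (chartAt (E d) x).symm σ p‖ ≤ |B| := (hpB hpK).trans (le_abs_self _)
    have h3 : c₁ * ‖v'‖ ≤ nm F ((chartAt (E d) x).symm p) (Pool.Agent.Y455.SY.A x p v') :=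
      (hnm p hp v').1
    have h4 : c₁ * ‖w'‖ ≤ nm F ((chartAt (E d) x).symm p) (Pool.Agent.Y455.SY.A x p w') :=
      (hnm p hp w').1
    have h5 : ‖v'‖ ≤ c₁⁻¹ * nm F ((chartAt (E d) x).symm p) (Pool.Agent.Y455.SY.A x p v') := by
      rw [inv_mul_eq_div, le_div_iff₀ hc₁, mul_comm]
      exact h3
    have h6 : ‖w'‖ ≤ c₁⁻¹ * nm F ((chartAt (E d) x).symm p) (Pool.Agent.Y455.SY.A x p w') := by
      rw [inv_mul_eq_div, le_div_iff₀ hc₁, mul_comm]
      exact h4
    have n1 : 0 ≤ nm F ((chartAt (E d) x).symm p) (Pool.Agent.Y455.SY.A x p v') := norm_nonneg _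
    have n2 : 0 ≤ nm F ((chartAt (E d) x).symm p) (Pool.Agent.Y455.SY.A x p w') := norm_nonneg _
    calc |pb (chartAt (E d) x).symm σ p ![v', w']|
        ≤ ‖pb (chartAt (E d) x).symm σ p‖ * ‖v'‖ * ‖w'‖ := h1
      _ ≤ |B| * (c₁⁻¹ * nm F ((chartAt (E d) x).symm p) (Pool.Agent.Y455.SY.A x p v')) *
          (c₁⁻¹ * nm F ((chartAt (E d) x).symm p) (Pool.Agent.Y455.SY.A x p w')) := by gcongr
      _ = _ := by ring
  · rintro ⟨B, hB0, hB⟩
    refine ⟨B * C₁ * C₁, ?_⟩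
    filter_upwards [hN1, ev_to_chart (d := d) hB] with p hp hpB hpK
    refine norm_le2 _ (by positivity) fun v w => ?_
    rw [pb_apply2]
    have h1 := hpB hpK (Pool.Agent.Y455.SY.A x p v) (Pool.Agent.Y455.SY.A x p w)
    have h3 : nm F ((chartAt (E d) x).symm p) (Pool.Agent.Y455.SY.A x p v) ≤ C₁ * ‖v‖ :=
      (hnm p hp v).2
    have h4 : nm F ((chartAt (E d) x).symm p) (Pool.Agent.Y455.SY.A x p w) ≤ C₁ * ‖w‖ :=
      (hnm p hp w).2
    have n1 : 0 ≤ nm F ((chartAt (E d) x).symm p) (Pool.Agent.Y455.SY.A x p v) := norm_nonneg _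
    have n2 : 0 ≤ nm F ((chartAt (E d) x).symm p) (Pool.Agent.Y455.SY.A x p w) := norm_nonneg _
    calc _ ≤ B * nm F ((chartAt (E d) x).symm p) (Pool.Agent.Y455.SY.A x p v) *
          nm F ((chartAt (E d) x).symm p) (Pool.Agent.Y455.SY.A x p w) := h1
      _ ≤ B * (C₁ * ‖v‖) * (C₁ * ‖w‖) := by gcongr
      _ = _ := by ring

/-- boundedness at the points off `K` -/
theorem bdd_offK {K : Set X} (hK : IsClosed K) {σ : Form d X 2} (hσ : SmoothOff σ K) {x : X}
    (hx : x ∉ K) : BddAt σ K x := by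
  have h1 : IsOpen ((chartAt (E d) x).target ∩ (chartAt (E d) x).symm ⁻¹' Kᶜ) :=
    (chartAt (E d) x).isOpen_inter_preimage_symm hK.isOpen_compl
  have h2 := hσ _ (chartAt (E d) x).symm h1 ((contMDiffOn_chart_symm
    (I := 𝓡 d)).mono inter_subset_left) (fun p hp => hp.2)
  have h3 : chartAt (E d) x x ∈
      (chartAt (E d) x).target ∩ (chartAt (E d) x).symm ⁻¹' Kᶜ := by
    refine ⟨mem_chart_target (E d) x, ?_⟩
    rw [mem_preimage, (chartAt (E d) x).left_inv (mem_chart_source (E d) x)]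
    exact hx
  have h4 : ContinuousAt (pb (chartAt (E d) x).symm σ) (chartAt (E d) x x) :=
    h2.continuousOn.continuousAt (h1.mem_nhds h3)
  refine ⟨‖pb (chartAt (E d) x).symm σ (chartAt (E d) x x)‖ + 1, ?_⟩
  filter_upwards [h4.norm.eventually_lt_const (lt_add_one _)] with p hp _
  exact hp.le

/-- transfer of local conditions -/
theorem pb_congr_near {σ σ' : Form d X 2} {x : X} (h : ∀ᶠ y in 𝓝 x, σ' y = σ y) :
    ∀ᶠ p in 𝓝 (chartAt (E d) x x),
      pb (chartAt (E d) x).symm σ' p = pb (chartAt (E d) x).symm σ p := by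
  filter_upwards [ev_to_chart (d := d) h] with p hp
  unfold pb
  rw [hp]

theorem BddAt.congr {σ σ' : Form d X 2} {K K' : Set X} {x : X}
    (h : ∀ᶠ y in 𝓝 x, σ' y = σ y ∧ (y ∈ K' ↔ y ∈ K)) (hb : BddAt σ K x) : BddAt σ' K' x := by
  obtain ⟨B, hB⟩ := hb
  refine ⟨B, ?_⟩
  filter_upwards [hB, pb_congr_near (h.mono fun y hy => hy.1),
    ev_to_chart (d := d) (h.mono fun y hy => hy.2)] with p h1 h2 h3 h4
  rw [h2]
  exact h1 fun h5 => h4 (h3.2 h5)

theorem GrowAt.congr {σ σ' : Form d X 2} {K K' : Set X} {x : X}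
    (h : ∀ᶠ y in 𝓝 x, σ' y = σ y ∧ (y ∈ K' ↔ y ∈ K)) (hb : GrowAt σ K x) :
    GrowAt σ' K' x := by
  obtain ⟨a, C, ha, hC⟩ := hb
  refine ⟨a, C, ha, ?_⟩
  filter_upwards [hC, pb_congr_near (h.mono fun y hy => hy.1),
    ev_to_chart (d := d) (h.mono fun y hy => hy.2)] with p h1 h2 h3 h4
  rw [h2]
  exact h1 fun h5 => h4 (h3.2 h5)

end

theorem pt_step {d m : ℕ} {X : Type} [TopologicalSpace X] [ChartedSpace (E d) X]
    [IsManifold (𝓡 d) ∞ X] [T2Space X] (hd : 3 ≤ d) {F : X → E m}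
    (hF : ContMDiff (𝓡 d) (𝓡 m) ∞ F)
    (hFi : ∀ x, Function.Injective (mfderiv (𝓡 d) (𝓡 m) F x)) {J : End d X}
    (hJ : IsAlmostComplex J) {K : Set X} {w : Form d X 2} (hK : IsClosed K)
    (hH : ∀ x₀ : X, μH[(d : ℝ) - 1] (chartAt (E d) x₀ '' (K ∩ (chartAt (E d) x₀).source)) = 0)
    (hUP : UP F J w K) {z : X} (hzK : z ∈ K) (hg : GrowAt w K z) {A' : Set X} (hA : IsOpen A')
    (hz : z ∈ A') :
    ∃ (K' O : Set X) (w' : Form d X 2), IsOpen O ∧ z ∈ O ∧ O ⊆ A' ∧ K' ⊆ K ∧ IsClosed K' ∧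
      UP F J w' K' ∧ (∀ x ∈ O, BddAt w' K' x) ∧
      ∀ x, x ∉ O → ∀ᶠ y in 𝓝 x, w' y = w y ∧ (y ∈ K' ↔ y ∈ K) := by
  have hI : S_IMM := Pool.Agent.Y44.SY.t_IMM
  have hd1 : 1 ≤ d := by omega
  obtain ⟨a, C₀, ha, hC₀⟩ := hg
  obtain ⟨c₁, hc₁, hwc⟩ := hUP.pos
  -- the ball
  obtain ⟨r, hr, hball⟩ : ∃ r : ℝ, 0 < r ∧ ∀ p ∈ Metric.closedBall (chartAt (E d) z z) r,
      p ∈ (chartAt (E d) z).target ∧ (chartAt (E d) z).symm p ∈ A' ∧
        ((chartAt (E d) z).symm p ∉ K → ‖pb (chartAt (E d) z).symm w p‖ ≤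
          C₀ * ‖p - chartAt (E d) z z‖ ^ (-a)) := by
    have h4 := ev_to_chart (d := d) (x₀ := z) (P := fun x => x ∈ A') (hA.mem_nhds hz)
    have h5 : ∀ᶠ p in 𝓝 (chartAt (E d) z z), p ∈ (chartAt (E d) z).target :=
      (chartAt (E d) z).open_target.mem_nhds (mem_chart_target (E d) z)
    obtain ⟨r, hr, h6⟩ := Metric.nhds_basis_closedBall.mem_iff.1 (h5.and (h4.and hC₀))
    exact ⟨r, hr, fun p hp => h6 hp⟩
  obtain ⟨p₀, hp₀⟩ : ∃ p₀, p₀ = chartAt (E d) z z := ⟨_, rfl⟩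
  rw [← hp₀] at hball
  obtain ⟨e, he⟩ : ∃ e, e = chartAt (E d) z := ⟨_, rfl⟩
  have hzs : z ∈ e.source := by rw [he]; exact mem_chart_source (E d) z
  have hez : e z = p₀ := by rw [he, hp₀]
  have hesz : e.symm p₀ = z := by rw [← hez]; exact e.left_inv hzs
  have hVt : Metric.closedBall p₀ r ⊆ e.target := fun p hp => by
    rw [he]; exact (hball p hp).1
  have hV : Metric.ball p₀ r ⊆ e.target := Metric.ball_subset_closedBall.trans hVt
  have hN : IsCompact (Metric.closedBall p₀ r) := isCompact_closedBall p₀ r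
  obtain ⟨ci, Ci, hci, hCi, hnm⟩ := hI d m X F hF hFi z (Metric.closedBall p₀ r) hN
    (by rw [← he]; exact hVt)
  have hW : IsOpen (e.source ∩ e ⁻¹' Metric.ball p₀ (r / 2)) :=
    e.isOpen_inter_preimage Metric.isOpen_ball
  have hO : IsOpen (e.source ∩ e ⁻¹' Metric.ball p₀ r) :=
    e.isOpen_inter_preimage Metric.isOpen_ball
  obtain ⟨W, hWd⟩ : ∃ W, W = e.source ∩ e ⁻¹' Metric.ball p₀ (r / 2) := ⟨_, rfl⟩
  obtain ⟨O, hOd⟩ : ∃ O, O = e.source ∩ e ⁻¹' Metric.ball p₀ r := ⟨_, rfl⟩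
  rw [← hWd] at hW
  rw [← hOd] at hO
  have heO : e '' O = Metric.ball p₀ r := by
    apply Subset.antisymm
    · rintro _ ⟨x, hx, rfl⟩
      rw [hOd] at hx
      exact hx.2
    · intro p hp
      refine ⟨e.symm p, ?_, e.right_inv (hV hp)⟩
      rw [hOd]
      refine ⟨e.map_target (hV hp), ?_⟩
      rw [mem_preimage, e.right_inv (hV hp)]
      exact hp
  have hOs : O ⊆ e.source := by rw [hOd]; exact inter_subset_left
  have hWO : W ⊆ O := by
    rw [hWd, hOd]
    exact inter_subset_inter_right _ (preimage_mono (Metric.ball_subset_ball (by linarith)))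
  have hOA : O ⊆ A' := by
    intro x hx
    have h1 : e x ∈ Metric.ball p₀ r := by rw [hOd] at hx; exact hx.2
    have h2 := (hball (e x) (Metric.ball_subset_closedBall h1)).2.1
    rw [← he, e.left_inv (hOs hx)] at h2
    exact h2
  have hWs : ∀ p ∈ Metric.ball p₀ r, e.symm p ∈ W ↔ p ∈ Metric.ball p₀ (r / 2) := by
    intro p hp
    rw [hWd]
    constructor
    · rintro ⟨_, h⟩
      rwa [mem_preimage, e.right_inv (hV hp)] at h
    · intro h
      refine ⟨e.map_target (hV hp), ?_⟩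
      rwa [mem_preimage, e.right_inv (hV hp)]
  have hzO : z ∈ O := by
    rw [hOd]
    refine ⟨hzs, ?_⟩
    rw [mem_preimage, hez]
    exact Metric.mem_ball_self hr
  -- the cut-off function
  obtain ⟨χ, hχ⟩ : ∃ χ : ContDiffBump p₀, χ.rOut = r / 2 :=
    ⟨⟨r / 4, r / 2, by positivity, by linarith⟩, rfl⟩
  have hχt : tsupport χ = Metric.closedBall p₀ (r / 2) := by rw [χ.tsupport_eq, hχ]
  have hχ0 : ∀ p, χ p = 0 ↔ p ∉ Metric.ball p₀ (r / 2) := by
    intro p
    rw [← hχ, ← χ.support_eq, Function.notMem_support]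
  have htV : Metric.closedBall p₀ (r / 2) ⊆ Metric.ball p₀ r :=
    Metric.closedBall_subset_ball (by linarith)
  obtain ⟨k, hk⟩ : ∃ k, k = Metric.ball p₀ r ∩ e.symm ⁻¹' K := ⟨_, rfl⟩
  have hVk : Metric.ball p₀ r \ k = Metric.ball p₀ r ∩ e.symm ⁻¹' Kᶜ := by
    rw [hk]
    ext p
    simp only [Set.mem_sdiff, mem_inter_iff, mem_preimage, mem_compl_iff]
    tauto
  have hVko : IsOpen (Metric.ball p₀ r \ k) := by
    rw [hVk]
    have h1 : IsOpen (e.target ∩ e.symm ⁻¹' Kᶜ) := e.isOpen_inter_preimage_symm hK.isOpen_compl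
    have h2 : Metric.ball p₀ r ∩ e.symm ⁻¹' Kᶜ = Metric.ball p₀ r ∩ (e.target ∩ e.symm ⁻¹' Kᶜ) := by
      rw [← inter_assoc, inter_eq_left.2 hV]
    rw [h2]
    exact Metric.isOpen_ball.inter h1
  have hsK : ∀ p ∈ Metric.ball p₀ r \ k, e.symm p ∉ K := by
    intro p hp
    rw [hVk] at hp
    exact hp.2
  have hp₀k : p₀ ∈ k := by
    rw [hk]
    refine ⟨Metric.mem_ball_self hr, ?_⟩
    rw [mem_preimage, hesz]
    exact hzK
  have hcapk : ∀ Q : Set (E d), IsCompact Q → Q ⊆ Metric.ball p₀ r → Cap (k ∩ Q) := by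
    intro Q hQc hQV
    have h1 : k ∩ Q = Q ∩ e.symm ⁻¹' K := by
      rw [hk]
      ext p
      simp only [mem_inter_iff, mem_preimage]
      exact ⟨fun h => ⟨h.2, h.1.2⟩, fun h => ⟨⟨hQV h.1, h.2⟩, h.1⟩⟩
    have h2 : IsClosed (Q ∩ e.symm ⁻¹' K) :=
      (e.continuousOn_symm.mono (hQV.trans hV)).preimage_isClosed_of_isClosed hQc.isClosed hK
    rw [h1]
    refine t_CAP d hd1 _ (hQc.of_isClosed_subset h2 inter_subset_left) ?_
    refine measure_mono_null ?_ (hH z)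
    rintro p ⟨hp, hpK⟩
    rw [← he]
    exact ⟨e.symm p, ⟨hpK, e.map_target (hV (hQV hp))⟩, e.right_inv (hV (hQV hp))⟩
  have hsymm : ContMDiffOn (𝓡 d) (𝓡 d) ∞ (chartAt (E d) z).symm (Metric.ball p₀ r) :=
    contMDiffOn_chart_symm.mono (by rw [← he]; exact hV)
  have hs1 : ContDiffOn ℝ ∞ (pb (chartAt (E d) z).symm w) (Metric.ball p₀ r \ k) :=
    hUP.smooth _ _ hVko (hsymm.mono sdiff_subset) (by rw [← he]; exact hsK)
  have hs2 : ∀ p ∈ Metric.ball p₀ r \ k, extDeriv (pb (chartAt (E d) z).symm w) p = 0 := by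
    intro p hp
    have h1 := hUP.closed _ _ hVko (hsymm.mono sdiff_subset) (by rw [← he]; exact hsK) p hp
    rw [h1, pb_zero]
    rfl
  have hs3 : ∀ p ∈ Metric.ball p₀ r \ k,
      ‖pb (chartAt (E d) z).symm w p‖ ≤ |C₀| * ‖p - p₀‖ ^ (-a) := by
    intro p hp
    have h1 := (hball p (Metric.ball_subset_closedBall hp.1)).2.2 (by
      rw [← he]
      exact hsK p hp)
    exact h1.trans (mul_le_mul_of_nonneg_right (le_abs_self _) (by positivity))
  have hs4 : ∀ p ∈ Metric.ball p₀ r \ k, ∀ v : E d, c₁ * ci ^ 2 * ‖v‖ ^ 2 ≤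
      pb (chartAt (E d) z).symm w p ![v, inChart J z p v] := by
    intro p hp v
    have hpc : p ∈ Metric.closedBall p₀ r := Metric.ball_subset_closedBall hp.1
    have h0 := Q_eq w J z (p := p) (by rw [← he]; exact hV hp.1) v
    unfold Q at h0
    rw [h0]
    have h1 := hwc ((chartAt (E d) z).symm p) (by rw [← he]; exact hsK p hp)
      (Pool.Agent.Y455.SY.A z p v)
    refine le_trans ?_ h1
    have h2 := (hnm p hpc v).1
    have h3 : (ci * ‖v‖) ^ 2 ≤ nm F ((chartAt (E d) z).symm p)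
        (Pool.Agent.Y455.SY.A z p v) ^ 2 := by
      have : 0 ≤ ci * ‖v‖ := by positivity
      exact pow_le_pow_left₀ this h2 2
    calc _ = c₁ * (ci * ‖v‖) ^ 2 := by ring
      _ ≤ _ := by gcongr
  have hJc : ContinuousOn (inChart J z) (Metric.ball p₀ r) := (hJ.cont z).mono (by
    rw [← he]; exact hV)
  obtain ⟨s', B', c', hc', g1, g2, g3, g4, g5⟩ := loc_reg Pool.Agent.Y394.SY.t_SM hd (p₀ := p₀)
    (r := r) (a := a) (C₀ := |C₀|) (c₀ := c₁ * ci ^ 2) hr ha (abs_nonneg _) (by positivity)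
    (k := k) (χ := χ) (s := pb (chartAt (E d) z).symm w) (Js := inChart J z) hVko hp₀k hcapk
    χ.contDiff (fun p => χ.nonneg) χ.hasCompactSupport (by rw [hχt]; exact htV) hχ0 hs1 hs2 hs3
    hJc (fun v => inChart_sq hJ z (by rw [← he]; exact hV (Metric.mem_ball_self hr)) v) hs4
  -- the new singular set
  have hKW : IsClosed (K \ W) := by
    rw [Set.sdiff_eq]
    exact hK.inter hW.isClosed_compl
  have hset : (chartAt (E d) z '' O) \ (chartAt (E d) z '' ((K \ W) ∩ O)) =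
      Metric.ball p₀ r \ (k ∩ {p | χ p = 0}) := by
    rw [← he, heO]
    ext p
    constructor
    · rintro ⟨hp, hn⟩
      refine ⟨hp, ?_⟩
      rintro ⟨h1, h2⟩
      apply hn
      rw [hk] at h1
      refine ⟨e.symm p, ⟨⟨h1.2, ?_⟩, ?_⟩, e.right_inv (hV hp)⟩
      · rw [hWs p hp]
        exact (hχ0 p).1 h2
      · rw [hOd]
        refine ⟨e.map_target (hV hp), ?_⟩
        rwa [mem_preimage, e.right_inv (hV hp)]
    · rintro ⟨hp, hn⟩
      refine ⟨hp, ?_⟩
      rintro ⟨x, ⟨⟨hxK, hxW⟩, hxO⟩, rfl⟩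
      apply hn
      have hxs := hOs hxO
      refine ⟨?_, ?_⟩
      · rw [hk]
        refine ⟨hp, ?_⟩
        change e.symm (e x) ∈ K
        rwa [e.left_inv hxs]
      · change χ (e x) = 0
        rw [hχ0, ← hWs _ hp, e.left_inv hxs]
        exact hxW
  obtain ⟨f1, f2, f3, f4⟩ := Pool.Agent.Y949.SY.t_PATCH2 d X z O K (K \ W)
    (Metric.closedBall p₀ (r / 2)) s' w hO
    (by rw [← he]; exact hOs) hKW sdiff_subset (isCompact_closedBall _ _)
    (by rw [← he, heO]; exact htV)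
    (by
      intro x hx hx2
      have hxW : x ∈ W := by
        by_contra h
        exact hx2 ⟨hx, h⟩
      refine ⟨hWO hxW, ?_⟩
      rw [← he]
      rw [hWd] at hxW
      exact Metric.ball_subset_closedBall hxW.2)
    (by rw [hset]; exact g1) (by rw [hset]; exact g2)
    (by
      intro p hp
      apply g4
      rw [hχ0]
      exact fun h => hp.2 (Metric.ball_subset_closedBall h))
    hUP.smooth hUP.closed
  have hout : ∀ x, x ∉ O → patch z O s' w x = w x := fun x hx => f3 x (Or.inl hx)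
  have hin : ∀ x ∈ O, x ∉ K \ W → ∃ p ∈ Metric.ball p₀ r \ (k ∩ {p | χ p = 0}), e.symm p = x := by
    intro x hx hx2
    refine ⟨e x, ?_, e.left_inv (hOs hx)⟩
    rw [← hset, ← he]
    refine ⟨⟨x, hx, rfl⟩, ?_⟩
    rintro ⟨y, hy, hyx⟩
    have : y = x := e.injOn (hOs hy.2) (hOs hx) hyx
    rw [this] at hy
    exact hx2 hy.1
  refine ⟨K \ W, O, patch z O s' w, hO, hzO, hOA, sdiff_subset, hKW, ⟨f1, f2, ?_⟩, ?_, ?_⟩
  · refine ⟨min c₁ (c' * (Ci⁻¹) ^ 2), lt_min hc₁ (by positivity), ?_⟩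
    intro x hx v
    by_cases hxO : x ∈ O
    · obtain ⟨p, hp, rfl⟩ := hin x hxO hx
      have hpc : p ∈ Metric.closedBall p₀ r := Metric.ball_subset_closedBall hp.1
      have hpt : p ∈ (chartAt (E d) z).target := by rw [← he]; exact hV hp.1
      subst he
      have hv := AB z hpt v
      obtain ⟨v', hv'⟩ : ∃ v', v' = Pool.Agent.Y455.SY.B z p v := ⟨_, rfl⟩
      rw [← hv'] at hv
      have h0 := Q_eq (patch z O s' w) J z hpt v'
      unfold Q at h0
      rw [hv, f4 p (by rw [heO]; exact hp.1)] at h0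
      rw [← h0]
      refine le_trans ?_ (g5 p hp v')
      have h4 := (hnm p hpc v').2
      change nm F ((chartAt (E d) z).symm p) (Pool.Agent.Y455.SY.A z p v') ≤ Ci * ‖v'‖ at h4
      rw [hv] at h4
      have n1 : 0 ≤ nm F ((chartAt (E d) z).symm p) v := norm_nonneg _
      have h6 : Ci⁻¹ * nm F ((chartAt (E d) z).symm p) v ≤ ‖v'‖ := by
        rw [inv_mul_eq_div, div_le_iff₀ hCi, mul_comm]
        exact h4
      have h7 : (Ci⁻¹ * nm F ((chartAt (E d) z).symm p) v) ^ 2 ≤ ‖v'‖ ^ 2 :=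
        pow_le_pow_left₀ (by positivity) h6 2
      calc min c₁ (c' * (Ci⁻¹) ^ 2) * nm F ((chartAt (E d) z).symm p) v ^ 2
          ≤ (c' * (Ci⁻¹) ^ 2) * nm F ((chartAt (E d) z).symm p) v ^ 2 := by
            have := min_le_right c₁ (c' * (Ci⁻¹) ^ 2)
            gcongr
        _ = c' * (Ci⁻¹ * nm F ((chartAt (E d) z).symm p) v) ^ 2 := by ring
        _ ≤ c' * ‖v'‖ ^ 2 := by gcongr
    · rw [hout x hxO]
      have hxK : x ∉ K := fun h => hx ⟨h, fun h' => hxO (hWO h')⟩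
      refine le_trans ?_ (hwc x hxK v)
      have := min_le_left c₁ (c' * (Ci⁻¹) ^ 2)
      gcongr
  · -- boundedness
    intro x hxO
    by_cases hxW : x ∈ W
    · exact bdd_offK hKW f1 fun h => h.2 hxW
    · rw [BddAt_iff hI hF hFi]
      refine ⟨|B'| * ci⁻¹ * ci⁻¹, by positivity, ?_⟩
      have hxb : e x ∉ Metric.ball p₀ (r / 2) := by
        intro h
        apply hxW
        rw [hWd]
        exact ⟨hOs hxO, h⟩
      have hxr : r / 4 < ‖e x - p₀‖ := by
        rw [Metric.mem_ball, dist_eq_norm, not_lt] at hxb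
        linarith
      have hcont : ContinuousAt (fun y => ‖e y - p₀‖) x :=
        ((e.continuousAt (hOs hxO)).sub continuousAt_const).norm
      filter_upwards [hO.mem_nhds hxO, hcont.eventually_const_lt hxr] with y hyO hyr hyK v u
      obtain ⟨p, hp, rfl⟩ := hin y hyO hyK
      have hpc : p ∈ Metric.closedBall p₀ r := Metric.ball_subset_closedBall hp.1
      have hpr : r / 4 ≤ ‖p - p₀‖ := by
        rw [e.right_inv (hV hp.1)] at hyr
        exact hyr.le
      have hpt : p ∈ (chartAt (E d) z).target := by rw [← he]; exact hV hp.1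
      subst he
      have hv := AB z hpt v
      have hu := AB z hpt u
      obtain ⟨v', hv'⟩ : ∃ v', v' = Pool.Agent.Y455.SY.B z p v := ⟨_, rfl⟩
      obtain ⟨u', hu'⟩ : ∃ u', u' = Pool.Agent.Y455.SY.B z p u := ⟨_, rfl⟩
      rw [← hv'] at hv
      rw [← hu'] at hu
      have h1 : patch z O s' w ((chartAt (E d) z).symm p) ![v, u] = s' p ![v', u'] := by
        have h2 := f4 p (by rw [heO]; exact hp.1)
        rw [← h2, pb_app2]
        change _ = patch z O s' w ((chartAt (E d) z).symm p) ![Pool.Agent.Y455.SY.A z p v',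
          Pool.Agent.Y455.SY.A z p u']
        rw [hv, hu]
      rw [h1]
      have h3 := le_norm2 (s' p) v' u'
      have h4 := (hnm p hpc v').1
      have h5 := (hnm p hpc u').1
      change ci * ‖v'‖ ≤ nm F ((chartAt (E d) z).symm p) (Pool.Agent.Y455.SY.A z p v') at h4
      change ci * ‖u'‖ ≤ nm F ((chartAt (E d) z).symm p) (Pool.Agent.Y455.SY.A z p u') at h5
      rw [hv] at h4
      rw [hu] at h5
      have h6 : ‖v'‖ ≤ ci⁻¹ * nm F ((chartAt (E d) z).symm p) v := by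
        rw [inv_mul_eq_div, le_div_iff₀ hci, mul_comm]
        exact h4
      have h7 : ‖u'‖ ≤ ci⁻¹ * nm F ((chartAt (E d) z).symm p) u := by
        rw [inv_mul_eq_div, le_div_iff₀ hci, mul_comm]
        exact h5
      have h8 : ‖s' p‖ ≤ |B'| := (g3 p hp hpr).trans (le_abs_self _)
      have n1 : 0 ≤ nm F ((chartAt (E d) z).symm p) v := norm_nonneg _
      have n2 : 0 ≤ nm F ((chartAt (E d) z).symm p) u := norm_nonneg _
      calc |s' p ![v', u']| ≤ ‖s' p‖ * ‖v'‖ * ‖u'‖ := h3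
        _ ≤ |B'| * (ci⁻¹ * nm F ((chartAt (E d) z).symm p) v) *
            (ci⁻¹ * nm F ((chartAt (E d) z).symm p) u) := by gcongr
        _ = (|B'| * ci⁻¹ * ci⁻¹) * nm F ((chartAt (E d) z).symm p) v *
            nm F ((chartAt (E d) z).symm p) u := by ring
  · -- nothing changes elsewhere
    intro x hxO
    obtain ⟨M, hM⟩ : ∃ M, M = e.symm '' Metric.closedBall p₀ (r / 2) := ⟨_, rfl⟩
    have hMc : IsCompact M := by
      rw [hM]
      exact (isCompact_closedBall _ _).image_of_continuousOn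
        (e.continuousOn_symm.mono (htV.trans hV))
    have hMO : M ⊆ O := by
      rw [hM]
      rintro _ ⟨p, hp, rfl⟩
      rw [hOd]
      refine ⟨e.map_target (hV (htV hp)), ?_⟩
      rw [mem_preimage, e.right_inv (hV (htV hp))]
      exact htV hp
    have hxM : x ∉ M := fun h => hxO (hMO h)
    filter_upwards [hMc.isClosed.isOpen_compl.mem_nhds hxM] with y hy
    have hyN : y ∉ O ∨ chartAt (E d) z y ∉ Metric.closedBall p₀ (r / 2) := by
      by_cases hyO : y ∈ O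
      · right
        intro h
        apply hy
        rw [hM]
        refine ⟨e y, by rw [he]; exact h, e.left_inv (hOs hyO)⟩
      · exact Or.inl hyO
    refine ⟨f3 y hyN, ⟨fun h => h.1, fun h => ⟨h, fun hW' => ?_⟩⟩⟩
    rcases hyN with h' | h'
    · exact h' (hWO hW')
    · apply h'
      rw [← he]
      rw [hWd] at hW'
      exact Metric.ball_subset_closedBall hW'.2

end Pool.Agent.Q186.SG
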