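import Pool.Agent.Q186.SG.Av

/-!
Weighted capacity of a set of capacity zero, for a weight which is a power of the distance to a
point (helper186).
-/

set_option autoImplicit false

open Set Filter Topology MeasureTheory Metric
open scoped Manifold ContDiff

noncomputable section

namespace Pool.Agent.Q186.SG

open Pool.Agent.Y501.SY
open Pool.Agent.Y515.SY (Al)

variable {d : ℕ}

/-- weighted capacity zero -/
def WCap (k : Set (E d)) (Φ : E d → Al d 2) : Prop :=
  ∀ δ : ℝ, 0 < δ → ∃ η : E d → ℝ, ContDiff ℝ ∞ η ∧ (∀ x, 0 ≤ η x) ∧ (∀ x, η x ≤ 1) ∧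
    (∀ᶠ x in 𝓝ˢ k, η x = 1) ∧ HasCompactSupport η ∧
    ∫ x, η x * ‖Φ x‖ ≤ δ ∧ ∫ x, ‖fderiv ℝ η x‖ * ‖Φ x‖ ≤ δ

theorem pow_int (hd : 1 ≤ d) (p₀ : E d) {b : ℝ} (hb : b < d) (r : ℝ) :
    IntegrableOn (fun x : E d => ‖x - p₀‖ ^ (-b)) (ball p₀ r) := by
  have : Nonempty (Fin d) := ⟨⟨0, hd⟩⟩
  have h1 : IntegrableOn (fun x : E d => (fun y : ℝ => y ^ (-b)) ‖x‖) (ball 0 r) := by
    rw [integrableOn_fun_norm_addHaar volume (f := fun y : ℝ => y ^ (-b))]
    rcases le_or_gt r 0 with hr | hr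
    · rw [Ioo_eq_empty (not_lt.2 hr)]; exact integrableOn_empty
    · have h2 : IntegrableOn (fun y : ℝ => y ^ ((d : ℝ) - 1 - b)) (Ioo 0 r) :=
        (intervalIntegral.integrableOn_Ioo_rpow_iff hr).2 (by linarith)
      refine h2.congr_fun (fun y hy => ?_) measurableSet_Ioo
      simp only [finrank_euclideanSpace, Fintype.card_fin, smul_eq_mul]
      rw [← Real.rpow_natCast, ← Real.rpow_add hy.1, Nat.cast_sub hd]
      congr 1
      push_cast
      ring
  have h2 := (integrable_indicator_iff measurableSet_ball).2 h1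
  have h3 := h2.comp_sub_right p₀
  rw [← integrable_indicator_iff measurableSet_ball]
  refine h3.congr (Eventually.of_forall fun x => ?_)
  by_cases hx : x ∈ ball p₀ r
  · have hx' : x - p₀ ∈ ball (0 : E d) r := by
      rw [mem_ball_zero_iff]; rwa [mem_ball, dist_eq_norm] at hx
    simp only [indicator_of_mem hx, indicator_of_mem hx']
  · have hx' : x - p₀ ∉ ball (0 : E d) r := by
      rw [mem_ball_zero_iff]; rwa [mem_ball, dist_eq_norm] at hx
    simp only [indicator_of_notMem hx, indicator_of_notMem hx']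

theorem wcap (hd : 3 ≤ d) {k : Set (E d)} (hk : Cap k) {Φ : E d → Al d 2}
    (hm : StronglyMeasurable Φ) (hi : Integrable Φ) {p₀ : E d} {C b : ℝ} (hC : 0 ≤ C)
    (hb0 : 0 < b) (hb2 : b < 2) (hΦ : ∀ q, ‖Φ q‖ ≤ C * ‖q - p₀‖ ^ (-b)) : WCap k Φ := by
  intro δ hδ
  have hd3 : (3 : ℝ) ≤ d := by exact_mod_cast hd
  let β : ContDiffBump (0 : E d) := ⟨1 / 2, 1, by norm_num, by norm_num⟩
  have hβs : ContDiff ℝ ∞ β := β.contDiff
  obtain ⟨M, hM⟩ := (hβs.continuous_fderiv (by simp)).bounded_above_of_compact_support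
    (β.hasCompactSupport.fderiv ℝ)
  have hM0 : 0 ≤ M := (norm_nonneg _).trans (hM 0)
  -- the volume of the unit ball
  set vd : ℝ := (volume : Measure (E d)).real (closedBall (0 : E d) 1) with hvd
  have hvd0 : 0 ≤ vd := measureReal_nonneg
  set I : ℝ := ∫ x in ball p₀ 1, ‖x - p₀‖ ^ (-(b + 1 / 2)) with hI
  have hI0 : 0 ≤ I := integral_nonneg fun x => by positivity
  -- the choice of ε
  obtain ⟨ε, hε0, hε1, hεa, hεb⟩ : ∃ ε : ℝ, 0 < ε ∧ ε < 1 ∧
      C * I * ε ^ (1 / 2 : ℝ) < δ / 2 ∧ M * C * 2 ^ b * vd * ε ^ ((d : ℝ) - 1 - b) < δ / 2 := by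
    have t1 : Tendsto (fun ε : ℝ => C * I * ε ^ (1 / 2 : ℝ)) (𝓝[>] 0) (𝓝 0) := by
      have h1 : Tendsto (fun ε : ℝ => ε ^ (1 / 2 : ℝ)) (𝓝 0) (𝓝 0) := by
        have := (Real.continuousAt_rpow_const 0 (1 / 2 : ℝ) (Or.inr (by norm_num))).tendsto
        rwa [Real.zero_rpow (by norm_num)] at this
      have := (h1.mono_left (nhdsWithin_le_nhds (s := Ioi (0 : ℝ)))).const_mul (C * I)
      rwa [mul_zero] at this
    have t2 : Tendsto (fun ε : ℝ => M * C * 2 ^ b * vd * ε ^ ((d : ℝ) - 1 - b)) (𝓝[>] 0)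
        (𝓝 0) := by
      have h1 : Tendsto (fun ε : ℝ => ε ^ ((d : ℝ) - 1 - b)) (𝓝 0) (𝓝 0) := by
        have := (Real.continuousAt_rpow_const 0 ((d : ℝ) - 1 - b)
          (Or.inr (by linarith))).tendsto
        rwa [Real.zero_rpow (by linarith)] at this
      have := (h1.mono_left (nhdsWithin_le_nhds (s := Ioi (0 : ℝ)))).const_mul
        (M * C * 2 ^ b * vd)
      rwa [mul_zero] at this
    obtain ⟨ε, ⟨⟨h1, h2⟩, h3⟩, h4⟩ := (((t1.eventually (gt_mem_nhds (half_pos hδ))).and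
      (t2.eventually (gt_mem_nhds (half_pos hδ)))).and (nhdsWithin_le_nhds (s := Ioi (0 : ℝ))
      (gt_mem_nhds one_pos))).and self_mem_nhdsWithin |>.exists
    exact ⟨ε, h4, h3, h1, h2⟩
  -- the first cut-off
  set η₁ : E d → ℝ := fun x => β (ε⁻¹ • (x - p₀)) with hη₁
  have hη₁s : ContDiff ℝ ∞ η₁ :=
    hβs.comp ((contDiff_id.sub contDiff_const).const_smul ε⁻¹)
  have hη₁0 : ∀ x, 0 ≤ η₁ x := fun x => β.nonneg
  have hη₁1 : ∀ x, η₁ x ≤ 1 := fun x => β.le_one
  have hsm : ∀ x : E d, ‖ε⁻¹ • (x - p₀)‖ = ‖x - p₀‖ / ε := by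
    intro x
    rw [norm_smul, norm_inv, Real.norm_of_nonneg hε0.le, inv_mul_eq_div]
  have hη₁in : ∀ x, ‖x - p₀‖ ≤ ε / 2 → η₁ x = 1 := by
    intro x hx
    refine β.one_of_mem_closedBall ?_
    rw [mem_closedBall_zero_iff, hsm, div_le_iff₀ hε0]
    change ‖x - p₀‖ ≤ 1 / 2 * ε
    linarith
  have hη₁out : ∀ x, ε ≤ ‖x - p₀‖ → η₁ x = 0 := by
    intro x hx
    refine β.zero_of_le_dist ?_
    rw [dist_zero_right, hsm, le_div_iff₀ hε0]
    change 1 * ε ≤ ‖x - p₀‖
    linarith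
  have hη₁c : HasCompactSupport η₁ := by
    refine HasCompactSupport.intro (isCompact_closedBall p₀ ε) fun x hx => hη₁out x ?_
    rw [mem_closedBall, dist_eq_norm, not_le] at hx
    exact hx.le
  have hdη₁ : ∀ x, ‖fderiv ℝ η₁ x‖ ≤ M / ε := by
    intro x
    have h1 : HasFDerivAt η₁ ((fderiv ℝ β (ε⁻¹ • (x - p₀))).comp
        (ε⁻¹ • ContinuousLinearMap.id ℝ (E d))) x := by
      have h2 : HasFDerivAt (fun x : E d => ε⁻¹ • (x - p₀))
          (ε⁻¹ • ContinuousLinearMap.id ℝ (E d)) x :=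
        ((hasFDerivAt_id x).sub_const p₀).const_smul ε⁻¹
      exact ((hβs.differentiable (by simp)) _).hasFDerivAt.comp x h2
    rw [h1.fderiv]
    refine (ContinuousLinearMap.opNorm_comp_le _ _).trans ?_
    rw [norm_smul, norm_inv, Real.norm_of_nonneg hε0.le, div_eq_mul_inv]
    have h3 := ContinuousLinearMap.norm_id_le (𝕜 := ℝ) (E := E d)
    calc _ ≤ M * (ε⁻¹ * 1) := mul_le_mul (hM _) (mul_le_mul_of_nonneg_left h3 (by positivity))
          (by positivity) hM0
      _ = _ := by ring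
  have hdη₁in : ∀ x, ‖x - p₀‖ < ε / 2 → fderiv ℝ η₁ x = 0 := by
    intro x hx
    have h1 : η₁ =ᶠ[𝓝 x] fun _ => 1 := by
      have : {y : E d | ‖y - p₀‖ < ε / 2} ∈ 𝓝 x :=
        (isOpen_lt (by fun_prop) continuous_const).mem_nhds hx
      filter_upwards [this] with y hy using hη₁in y (le_of_lt hy)
    rw [h1.fderiv_eq, fderiv_fun_const]; rfl
  have hdη₁out : ∀ x, ε < ‖x - p₀‖ → fderiv ℝ η₁ x = 0 := by
    intro x hx
    have h1 : η₁ =ᶠ[𝓝 x] fun _ => 0 := by
      have : {y : E d | ε < ‖y - p₀‖} ∈ 𝓝 x :=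
        (isOpen_lt continuous_const (by fun_prop)).mem_nhds hx
      filter_upwards [this] with y hy using hη₁out y (le_of_lt hy)
    rw [h1.fderiv_eq, fderiv_fun_const]; rfl
  -- bound of the form away from the point
  set D : ℝ := C * (ε / 2) ^ (-b) with hD
  have hD0 : 0 ≤ D := by positivity
  have hΦD : ∀ x, ε / 2 ≤ ‖x - p₀‖ → ‖Φ x‖ ≤ D := by
    intro x hx
    refine (hΦ x).trans (mul_le_mul_of_nonneg_left ?_ hC)
    exact Real.rpow_le_rpow_of_nonpos (by positivity) hx (by linarith)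
  -- the second cut-off
  obtain ⟨η₂, hη₂s, hη₂0, hη₂1, hη₂k, -, hη₂c, hη₂v, hη₂i⟩ :=
    hk univ isOpen_univ (subset_univ _) (δ / (2 * (D + 1))) (by positivity)
  have hq : D * (δ / (2 * (D + 1))) ≤ δ / 2 := by
    rw [mul_div_assoc', div_le_div_iff₀ (by positivity) two_pos]
    nlinarith
  refine ⟨fun x => η₁ x + η₂ x - η₁ x * η₂ x, (hη₁s.add hη₂s).sub (hη₁s.mul hη₂s), ?_, ?_, ?_, ?_,
    ?_, ?_⟩
  · intro x
    nlinarith [hη₁0 x, hη₁1 x, hη₂0 x, hη₂1 x]
  · intro x
    nlinarith [hη₁0 x, hη₁1 x, hη₂0 x, hη₂1 x]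
  · filter_upwards [hη₂k] with x hx
    rw [hx]; ring
  · exact (hη₁c.add hη₂c).sub (hη₁c.mul_right)
  · -- the integral of the cut-off
    have e1 : ∀ x, (η₁ x + η₂ x - η₁ x * η₂ x) * ‖Φ x‖ ≤ η₁ x * ‖Φ x‖ + D * η₂ x := by
      intro x
      have h0 : 0 ≤ ‖Φ x‖ := norm_nonneg _
      rcases le_or_gt ‖x - p₀‖ (ε / 2) with h | h
      · rw [hη₁in x h]
        have : 0 ≤ D * η₂ x := mul_nonneg hD0 (hη₂0 x)
        nlinarith
      · have h1 := hΦD x h.le
        have h2 : η₂ x * ‖Φ x‖ ≤ η₂ x * D := mul_le_mul_of_nonneg_left h1 (hη₂0 x)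
        have h3 : 0 ≤ η₁ x * η₂ x * ‖Φ x‖ := by
          have := hη₁0 x; have := hη₂0 x; positivity
        nlinarith
    have i1 : Integrable (fun x => η₁ x * ‖Φ x‖) := by
      refine hi.norm.mono' (hη₁s.continuous.stronglyMeasurable.mul
        hm.norm).aestronglyMeasurable (Eventually.of_forall fun x => ?_)
      rw [norm_mul, Real.norm_of_nonneg (hη₁0 x), norm_norm]
      exact mul_le_of_le_one_left (norm_nonneg _) (hη₁1 x)
    have i2 : Integrable η₂ := hη₂s.continuous.integrable_of_hasCompactSupport hη₂c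
    have e2 : ∫ x, (η₁ x + η₂ x - η₁ x * η₂ x) * ‖Φ x‖ ≤
        (∫ x, η₁ x * ‖Φ x‖) + D * ∫ x, η₂ x := by
      rw [← integral_const_mul, ← integral_add i1 (i2.const_mul D)]
      refine integral_mono_of_nonneg (Eventually.of_forall fun x => ?_) (i1.add (i2.const_mul D))
        (Eventually.of_forall e1)
      have h2 : 0 ≤ η₁ x + η₂ x - η₁ x * η₂ x := by
        nlinarith [hη₁0 x, hη₁1 x, hη₂0 x, hη₂1 x]
      exact mul_nonneg h2 (norm_nonneg _)
    have e3 : ∫ x, η₁ x * ‖Φ x‖ ≤ C * I * ε ^ (1 / 2 : ℝ) := by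
      have h1 : ∀ x, η₁ x * ‖Φ x‖ ≤ (ball p₀ 1).indicator
          (fun x => C * ε ^ (1 / 2 : ℝ) * ‖x - p₀‖ ^ (-(b + 1 / 2))) x := by
        intro x
        rcases lt_or_ge ‖x - p₀‖ ε with h | h
        · have hx : x ∈ ball p₀ 1 := by rw [mem_ball, dist_eq_norm]; linarith
          rw [indicator_of_mem hx]
          rcases eq_or_lt_of_le (norm_nonneg (x - p₀)) with h0 | h0
          · have h2 := hΦ x
            rw [← h0, Real.zero_rpow (by linarith), mul_zero] at h2
            have h3 : ‖Φ x‖ = 0 := le_antisymm h2 (norm_nonneg _)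
            rw [h3, mul_zero]; positivity
          · have h2 := hΦ x
            have h3 : ‖x - p₀‖ ^ (-b) ≤ ε ^ (1 / 2 : ℝ) * ‖x - p₀‖ ^ (-(b + 1 / 2)) := by
              have h4 : ‖x - p₀‖ ^ (-b) = ‖x - p₀‖ ^ (1 / 2 : ℝ) * ‖x - p₀‖ ^ (-(b + 1 / 2)) := by
                rw [← Real.rpow_add h0]; congr 1; ring
              rw [h4]
              exact mul_le_mul_of_nonneg_right (Real.rpow_le_rpow h0.le h.le (by norm_num))
                (by positivity)
            calc η₁ x * ‖Φ x‖ ≤ 1 * (C * ‖x - p₀‖ ^ (-b)) :=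
                  mul_le_mul (hη₁1 x) h2 (norm_nonneg _) zero_le_one
              _ = C * ‖x - p₀‖ ^ (-b) := one_mul _
              _ ≤ C * (ε ^ (1 / 2 : ℝ) * ‖x - p₀‖ ^ (-(b + 1 / 2))) :=
                  mul_le_mul_of_nonneg_left h3 hC
              _ = _ := by ring
        · rw [hη₁out x h, zero_mul]
          exact indicator_nonneg (fun y _ => by positivity) x
      have i3 : Integrable ((ball p₀ 1).indicator
          (fun x : E d => C * ε ^ (1 / 2 : ℝ) * ‖x - p₀‖ ^ (-(b + 1 / 2)))) := by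
        rw [integrable_indicator_iff measurableSet_ball]
        exact (pow_int (by omega) p₀ (by linarith) 1).const_mul _
      refine (integral_mono_of_nonneg (Eventually.of_forall fun x =>
        mul_nonneg (hη₁0 x) (norm_nonneg _)) i3 (Eventually.of_forall h1)).trans (le_of_eq ?_)
      rw [integral_indicator measurableSet_ball, integral_const_mul, ← hI]
      ring
    have e4 : ∫ x, η₂ x ≤ δ / (2 * (D + 1)) := by
      have h1 : ∫ x, η₂ x = ∫ x in Function.support η₂, η₂ x := by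
        refine (setIntegral_eq_integral_of_forall_compl_eq_zero fun t ht => ?_).symm
        rwa [Function.notMem_support] at ht
      have h2 : ‖∫ x in Function.support η₂, η₂ x‖ ≤
          1 * (volume : Measure (E d)).real (Function.support η₂) :=
        norm_setIntegral_le_of_norm_le_const (hη₂v.trans ENNReal.ofReal_lt_top) fun t _ => by
          rw [Real.norm_of_nonneg (hη₂0 t)]
          exact hη₂1 t
      have h3 : (volume : Measure (E d)).real (Function.support η₂) ≤ δ / (2 * (D + 1)) := by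
        unfold Measure.real
        exact ENNReal.toReal_le_of_le_ofReal (by positivity) hη₂v.le
      rw [h1]
      refine (le_abs_self _).trans (h2.trans ?_)
      rw [one_mul]
      exact h3
    have e5 : D * ∫ x, η₂ x ≤ D * (δ / (2 * (D + 1))) := mul_le_mul_of_nonneg_left e4 hD0
    linarith
  · -- the integral of the derivative
    have hde : ∀ x, fderiv ℝ (fun x => η₁ x + η₂ x - η₁ x * η₂ x) x =
        (1 - η₂ x) • fderiv ℝ η₁ x + (1 - η₁ x) • fderiv ℝ η₂ x := by
      intro x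
      have d1 : HasFDerivAt η₁ (fderiv ℝ η₁ x) x :=
        ((hη₁s.differentiable (by simp)) x).hasFDerivAt
      have d2 : HasFDerivAt η₂ (fderiv ℝ η₂ x) x :=
        ((hη₂s.differentiable (by simp)) x).hasFDerivAt
      have h1 := (d1.add d2).sub (d1.mul d2)
      have h2 := h1.fderiv
      refine h2.trans ?_
      ext v
      simp only [ContinuousLinearMap.add_apply, ContinuousLinearMap.sub_apply,
        ContinuousLinearMap.smul_apply, smul_eq_mul]
      ring
    have e1 : ∀ x, ‖fderiv ℝ (fun x => η₁ x + η₂ x - η₁ x * η₂ x) x‖ * ‖Φ x‖ ≤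
        (closedBall p₀ ε).indicator (fun _ => M / ε * D) x + D * ‖fderiv ℝ η₂ x‖ := by
      intro x
      have h0 : 0 ≤ ‖Φ x‖ := norm_nonneg _
      have hn1 : 0 ≤ ‖fderiv ℝ η₂ x‖ := norm_nonneg _
      have h1 : ‖fderiv ℝ (fun x => η₁ x + η₂ x - η₁ x * η₂ x) x‖ ≤
          ‖fderiv ℝ η₁ x‖ + (1 - η₁ x) * ‖fderiv ℝ η₂ x‖ := by
        rw [hde]
        refine (norm_add_le _ _).trans (add_le_add ?_ ?_)
        · rw [norm_smul, Real.norm_of_nonneg (by linarith [hη₂1 x])]
          exact mul_le_of_le_one_left (norm_nonneg _) (by linarith [hη₂0 x])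
        · rw [norm_smul, Real.norm_of_nonneg (by linarith [hη₁1 x])]
      have h2 : ‖fderiv ℝ η₁ x‖ * ‖Φ x‖ ≤
          (closedBall p₀ ε).indicator (fun _ => M / ε * D) x := by
        rcases lt_or_ge ‖x - p₀‖ (ε / 2) with h | h
        · rw [hdη₁in x h, norm_zero, zero_mul]
          exact indicator_nonneg (fun y _ => by positivity) x
        · rcases le_or_gt ‖x - p₀‖ ε with h' | h'
          · have hx : x ∈ closedBall p₀ ε := by rw [mem_closedBall, dist_eq_norm]; exact h'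
            rw [indicator_of_mem hx]
            exact mul_le_mul (hdη₁ x) (hΦD x h) h0 (by positivity)
          · rw [hdη₁out x h', norm_zero, zero_mul]
            exact indicator_nonneg (fun y _ => by positivity) x
      have h3 : (1 - η₁ x) * ‖fderiv ℝ η₂ x‖ * ‖Φ x‖ ≤ D * ‖fderiv ℝ η₂ x‖ := by
        rcases le_or_gt ‖x - p₀‖ (ε / 2) with h | h
        · rw [hη₁in x h, sub_self, zero_mul, zero_mul]; positivity
        · have h4 := hΦD x h.le
          have h5 : (1 - η₁ x) * ‖fderiv ℝ η₂ x‖ ≤ ‖fderiv ℝ η₂ x‖ :=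
            mul_le_of_le_one_left hn1 (by linarith [hη₁0 x])
          calc (1 - η₁ x) * ‖fderiv ℝ η₂ x‖ * ‖Φ x‖ ≤ ‖fderiv ℝ η₂ x‖ * D :=
                mul_le_mul h5 h4 h0 hn1
            _ = _ := mul_comm _ _
      calc _ ≤ (‖fderiv ℝ η₁ x‖ + (1 - η₁ x) * ‖fderiv ℝ η₂ x‖) * ‖Φ x‖ :=
            mul_le_mul_of_nonneg_right h1 h0
        _ = ‖fderiv ℝ η₁ x‖ * ‖Φ x‖ + (1 - η₁ x) * ‖fderiv ℝ η₂ x‖ * ‖Φ x‖ := by ring
        _ ≤ _ := add_le_add h2 h3
    have i1 : Integrable ((closedBall p₀ ε).indicator (fun _ : E d => M / ε * D)) := by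
      rw [integrable_indicator_iff measurableSet_closedBall]
      exact integrableOn_const (isCompact_closedBall p₀ ε).measure_lt_top.ne
    have i2 : Integrable (fun x => D * ‖fderiv ℝ η₂ x‖) :=
      (((hη₂s.continuous_fderiv (by simp)).norm).integrable_of_hasCompactSupport
        (hη₂c.fderiv ℝ).norm).const_mul D
    refine (integral_mono_of_nonneg (Eventually.of_forall fun x => by positivity) (i1.add i2)
      (Eventually.of_forall e1)).trans ?_
    have e2 : ∫ x, ((closedBall p₀ ε).indicator (fun _ : E d => M / ε * D) x +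
        D * ‖fderiv ℝ η₂ x‖) = M / ε * D * (volume : Measure (E d)).real (closedBall p₀ ε) +
        D * ∫ x, ‖fderiv ℝ η₂ x‖ := by
      rw [integral_add i1 i2, integral_const_mul, integral_indicator measurableSet_closedBall,
        setIntegral_const, smul_eq_mul]
      ring
    have e3 : (volume : Measure (E d)).real (closedBall p₀ ε) = ε ^ d * vd := by
      unfold Measure.real at hvd ⊢
      rw [Measure.addHaar_closedBall' _ _ hε0.le, ENNReal.toReal_mul, finrank_euclideanSpace,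
        Fintype.card_fin, ENNReal.toReal_ofReal (by positivity), hvd]
    have e4 : M / ε * D * (ε ^ d * vd) = M * C * 2 ^ b * vd * ε ^ ((d : ℝ) - 1 - b) := by
      rw [hD, Real.div_rpow hε0.le (by norm_num), Real.rpow_sub hε0, Real.rpow_sub hε0,
        Real.rpow_natCast, Real.rpow_one, Real.rpow_neg hε0.le, Real.rpow_neg (by norm_num)]
      field_simp
    have e5 : D * ∫ x, ‖fderiv ℝ η₂ x‖ ≤ D * (δ / (2 * (D + 1))) :=
      mul_le_mul_of_nonneg_left hη₂i.le hD0
    have e6 : ∫ x, ((fun x => (closedBall p₀ ε).indicator (fun _ : E d => M / ε * D) x) +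
        fun x => D * ‖fderiv ℝ η₂ x‖) x = ∫ x, ((closedBall p₀ ε).indicator
          (fun _ : E d => M / ε * D) x + D * ‖fderiv ℝ η₂ x‖) := rfl
    refine (le_of_eq e6).trans ?_
    rw [e2, e3, e4]
    linarith

end Pool.Agent.Q186.SG
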